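import Mathlib
import Pool.Agent.Helper917.ToepDefs

set_option autoImplicit false

open scoped Matrix

namespace Pool.Agent.H275CG

open Pool.Agent.Helper917 (IsPos)

/-- `Γ ∈ G(A)`: every matrix over `A` all of whose clique blocks are positive has a positive
completion (the loops `(i, i)` belong to the edge set by convention). -/
def Completable (A : Type*) [NonUnitalCStarAlgebra A] {n : ℕ} (Γ : SimpleGraph (Fin n)) : Prop :=
  ∀ M : Matrix (Fin n) (Fin n) A,
    (∀ K : Finset (Fin n), (∀ i ∈ K, ∀ j ∈ K, i ≠ j → Γ.Adj i j) →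
      IsPos (M.submatrix (fun i : K => (i : Fin n)) (fun i : K => (i : Fin n)))) →
    ∃ Y : Matrix (Fin n) (Fin n) A, IsPos Y ∧ ∀ i j, (i = j ∨ Γ.Adj i j) → Y i j = M i j

/-- `Γ` is a disjoint union of complete graphs: adjacency is transitive on distinct vertices. -/
def CliqueUnion {n : ℕ} (Γ : SimpleGraph (Fin n)) : Prop :=
  ∀ i j k, Γ.Adj i j → Γ.Adj j k → i ≠ k → Γ.Adj i k

/-- The property of the problem: every graph in `G(A)` is a disjoint union of complete graphs. -/
def OnlyCliqueUnions (A : Type*) [NonUnitalCStarAlgebra A] : Prop :=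
  ∀ (n : ℕ) (Γ : SimpleGraph (Fin n)), Completable A Γ → CliqueUnion Γ

/-- The path on three vertices lies in `G(A)`, written out. -/
def P3 (A : Type*) [NonUnitalCStarAlgebra A] : Prop :=
  ∀ a b c d e : A, IsPos !![a, b; star b, c] → IsPos !![c, d; star d, e] →
    ∃ y : A, IsPos !![a, b, y; star b, c, d; star y, star d, e]

lemma exists_star_mul_self {B : Type*} [NonUnitalCStarAlgebra B] [PartialOrder B]
    [StarOrderedRing B] {a : B} (h : 0 ≤ a) : ∃ b : B, a = star b * b :=
  CStarAlgebra.nonneg_iff_eq_star_mul_self.1 h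

lemma sum_star_mul_self_nonneg {B κ : Type*} [Fintype κ] [NonUnitalCStarAlgebra B]
    [PartialOrder B] [StarOrderedRing B] (C : κ → B) : 0 ≤ ∑ k, star (C k) * C k :=
  Finset.sum_nonneg fun _ _ => star_mul_self_nonneg _

/-- Gram matrices of rectangular matrices are positive. -/
lemma isPos_gram {A κ ι : Type*} [NonUnitalCStarAlgebra A] [Fintype κ] [Fintype ι]
    (R : Matrix κ ι A) : IsPos (Rᴴ * R) := by
  classical
  let _ := CStarAlgebra.spectralOrder A
  have _ := CStarAlgebra.spectralOrderedRing A
  rcases isEmpty_or_nonempty ι with hι | ⟨⟨i0⟩⟩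
  · exact ⟨0, Subsingleton.elim _ _⟩
  · let C : κ → CStarMatrix ι ι A := fun k =>
      CStarMatrix.ofMatrix (Matrix.of fun i j => if i = i0 then R k j else 0)
    have h1 : (0 : CStarMatrix ι ι A) ≤ ∑ k, star (C k) * C k := sum_star_mul_self_nonneg C
    have h2 : ∑ k, star (C k) * C k = CStarMatrix.ofMatrix (Rᴴ * R) := by
      have e1 : ∀ k, star (C k) * C k
          = CStarMatrix.ofMatrix (Matrix.of fun i j => star (R k i) * R k j) := by
        intro k
        ext i j
        rw [CStarMatrix.mul_apply]
        simp only [CStarMatrix.star_apply, C, CStarMatrix.ofMatrix_apply, Matrix.of_apply]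
        rw [Finset.sum_eq_single i0]
        · simp
        · intro b _ hb; simp [hb]
        · intro h; exact absurd (Finset.mem_univ _) h
      simp only [e1]
      have e2 : ∀ s : Finset κ, ∑ k ∈ s, (CStarMatrix.ofMatrix
          (Matrix.of fun i j => star (R k i) * R k j) : CStarMatrix ι ι A)
          = CStarMatrix.ofMatrix (Matrix.of fun i j => ∑ k ∈ s, star (R k i) * R k j) := by
        intro s
        induction s using Finset.induction_on with
        | empty => ext i j; simp
        | insert a s ha ih =>
          rw [Finset.sum_insert ha, ih]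
          ext i j
          simp [Finset.sum_insert ha]
      rw [e2]
      ext i j
      simp [Matrix.mul_apply]
    rw [h2] at h1
    obtain ⟨B, hB⟩ := exists_star_mul_self h1
    exact ⟨CStarMatrix.ofMatrix.symm B, hB⟩

lemma isPos_submatrix {A ι κ : Type*} [NonUnitalCStarAlgebra A] [Fintype κ] [Fintype ι]
    {M : Matrix ι ι A} (h : IsPos M) (f : κ → ι) : IsPos (M.submatrix f f) := by
  obtain ⟨B, rfl⟩ := h
  have := isPos_gram (B.submatrix id f)
  convert this using 1
  ext i j
  simp [Matrix.mul_apply]

end Pool.Agent.H275CG
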