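import Mathlib
import Pool.Agent.H275.CG.Defs
import Pool.Agent.Helper917.ToepKernel

set_option autoImplicit false

open scoped Matrix

namespace Pool.Agent.H275CG

open Pool.Agent.Helper917 (IsPos norm_row_le)

/-- The factorization property: `x* x ≤ y* y` implies `x = z y` with `z` a contraction in `A`.
(The inequality is written as `x* x + s* s = y* y` for some `s`.) -/
def Douglas (A : Type*) [NonUnitalCStarAlgebra A] : Prop :=
  ∀ x y s : A, star x * x + star s * s = star y * y → ∃ z : A, ‖z‖ ≤ 1 ∧ x = z * y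

/-- A null vector of a Gram matrix. -/
lemma row_eq_zero {A κ ι : Type*} [NonUnitalCStarAlgebra A] [Fintype κ] [Fintype ι]
    {M : Matrix κ ι A} (B : Matrix κ ι A) (hB : M = B) (x : ι → A)
    (hx : ∑ k, star (x k) * ∑ j, (Bᴴ * B) k j * x j = 0) (i : ι) :
    ∑ j, (Bᴴ * B) i j * x j = 0 := by
  have := norm_row_le B x i
  rw [hx, norm_zero, mul_zero] at this
  have h2 : ‖∑ j, (Bᴴ * B) i j * x j‖ = 0 := by
    nlinarith [norm_nonneg (∑ j, (Bᴴ * B) i j * x j)]
  exact norm_eq_zero.1 h2

lemma isPos_row_eq_zero {A ι : Type*} [NonUnitalCStarAlgebra A] [Fintype ι]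
    {M : Matrix ι ι A} (h : IsPos M) (x : ι → A)
    (hx : ∑ k, star (x k) * ∑ j, M k j * x j = 0) (i : ι) : ∑ j, M i j * x j = 0 := by
  obtain ⟨B, rfl⟩ := h
  exact row_eq_zero B rfl x hx i

section

variable {A : Type*} [CStarAlgebra A]

lemma norm_one_le : ‖(1 : A)‖ ≤ 1 := by
  rcases subsingleton_or_nontrivial A with h | h
  · rw [Subsingleton.elim (1 : A) 0, norm_zero]; exact zero_le_one
  · rw [CStarRing.norm_one]

theorem douglas_of_p3 (h : P3 A) : Douglas A := by
  intro x y s hs
  have h1 : IsPos !![(1 : A), y; star y, star y * y] := by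
    have := isPos_gram (!![1, y] : Matrix (Fin 1) (Fin 2) A)
    convert this using 1
    ext i j
    fin_cases i <;> fin_cases j <;> simp [Matrix.mul_apply]
  have h2 : IsPos !![star y * y, star x; star (star x), (1 : A)] := by
    have := isPos_gram (!![x, 1; s, 0] : Matrix (Fin 2) (Fin 2) A)
    convert this using 1
    ext i j
    fin_cases i <;> fin_cases j <;> simp [Matrix.mul_apply, hs]
  obtain ⟨z, hz⟩ := h _ _ _ _ _ h1 h2
  have k1 := isPos_row_eq_zero hz ![-y, 1, 0] (by
    simp only [Fin.sum_univ_three, Matrix.of_apply, Matrix.cons_val_zero, Matrix.cons_val_one,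
      Matrix.cons_val, Matrix.cons_val']
    simp) 2
  have k2 : x = star z * y := by
    simp only [Fin.sum_univ_three, Matrix.of_apply, Matrix.cons_val_zero, Matrix.cons_val_one,
      Matrix.cons_val, Matrix.cons_val', star_star, mul_one, mul_zero, add_zero, mul_neg] at k1
    exact (neg_add_eq_zero.1 k1).symm
  refine ⟨star z, ?_, k2⟩
  rw [norm_star]
  obtain ⟨B, hB⟩ := hz
  have k3 := norm_row_le B ![0, 0, 1] 0
  rw [← hB] at k3
  simp only [Fin.sum_univ_three, Matrix.of_apply, Matrix.cons_val_zero, Matrix.cons_val_one,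
      Matrix.cons_val, Matrix.cons_val', star_star, mul_one, mul_zero, add_zero, zero_add,
      star_zero, star_one, zero_mul, one_mul] at k3
  have h0 := norm_one_le (A := A)
  have h3 : ‖z‖ ^ 2 ≤ 1 := k3.trans (by nlinarith [norm_nonneg (1 : A)])
  nlinarith [norm_nonneg z]

/-- The key factorization. -/
lemma factor (h : Douglas A) (q11 q12 q21 q22 r : A) (hr : star r = r)
    (hrr : star q12 * q12 + star q22 * q22 = r * r) :
    ∃ g t : A, star q11 * q12 + star q21 * q22 = g * r ∧
      star q11 * q11 + star q21 * q21 = g * star g + star t * t := by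
  let _ := CStarAlgebra.spectralOrder A
  have _ := CStarAlgebra.spectralOrderedRing A
  obtain ⟨z1, hz1, e1⟩ := h q12 r q22 (by rw [hr]; exact hrr)
  have hn : ‖star z1 * z1‖ ≤ 1 := by
    rw [CStarRing.norm_star_mul_self]; nlinarith [norm_nonneg z1]
  have h01 : 0 ≤ 1 - star z1 * z1 := by
    rw [sub_nonneg]
    exact (CStarAlgebra.norm_le_one_iff_of_nonneg _ (star_mul_self_nonneg z1)).1 hn
  let w := CFC.sqrt (1 - star z1 * z1)
  have hw0 : 0 ≤ w := CFC.sqrt_nonneg _
  have hws : star w = w := (IsSelfAdjoint.of_nonneg hw0)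
  have hww : w * w = 1 - star z1 * z1 := CFC.sqrt_mul_sqrt_self _ h01
  have e2' : star q22 * q22 = star (w * r) * (w * r) := by
    rw [star_mul, hws, hr]
    calc star q22 * q22 = r * r - star q12 * q12 := by rw [← hrr]; abel
      _ = r * (w * w) * r := by
        rw [hww, e1, star_mul, hr]; noncomm_ring
      _ = r * w * (w * r) := by noncomm_ring
  obtain ⟨z, hz, e2⟩ := h q22 (w * r) 0 (by rw [star_zero, mul_zero, add_zero]; exact e2')
  let z2 := z * w
  have e3 : q22 = z2 * r := by rw [e2]; simp only [z2]; noncomm_ring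
  have hzz : star z * z ≤ 1 := by
    refine (CStarAlgebra.norm_le_one_iff_of_nonneg _ (star_mul_self_nonneg z)).1 ?_
    rw [CStarRing.norm_star_mul_self]; nlinarith [norm_nonneg z]
  have hsum : 0 ≤ 1 - star z1 * z1 - star z2 * z2 := by
    have := star_left_conjugate_nonneg (sub_nonneg.2 hzz) w
    have e : star w * (1 - star z * z) * w = 1 - star z1 * z1 - star z2 * z2 := by
      simp only [z2, star_mul]
      rw [← hww]
      rw [hws]; noncomm_ring
    rwa [e] at this
  let g := star q11 * z1 + star q21 * z2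
  have hg : star q11 * q12 + star q21 * q22 = g * r := by
    simp only [g]; rw [add_mul]
    conv_lhs => rw [e1, e3]
    noncomm_ring
  have hnn : 0 ≤ star q11 * q11 + star q21 * q21 - g * star g := by
    have p1 := star_mul_self_nonneg (q11 - z1 * star g)
    have p2 := star_mul_self_nonneg (q21 - z2 * star g)
    have p3 := star_left_conjugate_nonneg hsum (star g)
    have := add_nonneg (add_nonneg p1 p2) p3
    convert this using 1
    have hgg : g = star q11 * z1 + star q21 * z2 := rfl
    have hgs : star g = star z1 * q11 + star z2 * q21 := by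
      rw [hgg]; simp [star_add, star_mul]
    simp only [star_sub, star_mul, star_star]
    have x1 : g * star z1 * q11 + g * star z2 * q21 = g * star g := by
      rw [hgs]; noncomm_ring
    have x2 : star q11 * z1 * star g + star q21 * z2 * star g = g * star g := by
      conv_rhs => rw [show g * star g = (star q11 * z1 + star q21 * z2) * star g from rfl]
      noncomm_ring
    have x3 : (star q11 - g * star z1) * (q11 - z1 * star g)
        + (star q21 - g * star z2) * (q21 - z2 * star g)
        + g * (1 - star z1 * z1 - star z2 * z2) * star g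
        = star q11 * q11 + star q21 * q21
          - (g * star z1 * q11 + g * star z2 * q21)
          - (star q11 * z1 * star g + star q21 * z2 * star g) + g * star g := by
      noncomm_ring
    rw [x3, x1, x2]; abel
  obtain ⟨t, ht⟩ := exists_star_mul_self hnn
  exact ⟨g, t, hg, by rw [← ht]; abel⟩

theorem p3_of_douglas (h : Douglas A) : P3 A := by
  intro a b c d e h1 h2
  let _ := CStarAlgebra.spectralOrder A
  have _ := CStarAlgebra.spectralOrderedRing A
  obtain ⟨R, hR⟩ := h1
  obtain ⟨S, hS⟩ := h2
  have r00 := congrFun (congrFun hR 0) 0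
  have r01 := congrFun (congrFun hR 0) 1
  have r11 := congrFun (congrFun hR 1) 1
  have s00 := congrFun (congrFun hS 0) 0
  have s10 := congrFun (congrFun hS 1) 0
  have s11 := congrFun (congrFun hS 1) 1
  simp only [Matrix.mul_apply, Fin.sum_univ_two, Matrix.conjTranspose_apply, Matrix.of_apply,
    Matrix.cons_val_zero, Matrix.cons_val_one, Matrix.cons_val'] at r00 r01 r11 s00 s10 s11
  have hc : 0 ≤ c := by
    rw [r11]; exact add_nonneg (star_mul_self_nonneg _) (star_mul_self_nonneg _)
  let r := CFC.sqrt c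
  have hrs : star r = r := IsSelfAdjoint.of_nonneg (CFC.sqrt_nonneg _)
  have hrr : r * r = c := CFC.sqrt_mul_sqrt_self _ hc
  obtain ⟨g, t, g1, g2⟩ := factor h (R 0 0) (R 0 1) (R 1 0) (R 1 1) r hrs (by rw [hrr, ← r11])
  obtain ⟨g', t', g1', g2'⟩ := factor h (S 0 1) (S 0 0) (S 1 1) (S 1 0) r hrs
    (by rw [hrr, ← s00])
  rw [← r01] at g1
  rw [← r00] at g2
  rw [← s10] at g1'
  rw [← s11] at g2'
  refine ⟨g * star g', ?_⟩
  have := isPos_gram (!![star g, r, star g'; t, 0, 0; 0, 0, t'] : Matrix (Fin 3) (Fin 3) A)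
  convert this using 1
  have hd : d = r * star g' := by
    have := congrArg star g1'
    rwa [star_star, star_mul, hrs] at this
  ext i j
  fin_cases i <;> fin_cases j <;>
    simp [Matrix.mul_apply, Fin.sum_univ_three, hrs, hrr, g1, g2, g1', g2', hd, star_mul]

theorem p3_iff_douglas : P3 A ↔ Douglas A := ⟨douglas_of_p3, p3_of_douglas⟩

end

end Pool.Agent.H275CG
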