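import Mathlib
import Pool.Agent.H275.CG.Defs
import Pool.Agent.H275.CG.Unital
import Pool.Agent.Helper917.ToepScalar
import Pool.Agent.Helper917.Interp
import Pool.Agent.Helper917.FourierMotzkin
import Pool.Agent.Helper917.SqrtCont
import Pool.Agent.Helper917.Gelfand
import Pool.Agent.Helper917.Classif
import Pool.Agent.Helper917.AlgTop

set_option autoImplicit false

open scoped Matrix ComplexConjugate ComplexOrder

namespace Pool.Agent.H275CG

open Pool.Agent.Helper917

lemma re_two_mul' (w : ℂ) : (2 * w).re = 2 * w.re := by simp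

/-- division by the root of the modulus -/
lemma continuous_div_sqrt : Continuous (fun w : ℂ => w / ((Real.sqrt ‖w‖ : ℝ) : ℂ)) := by
  rw [continuous_iff_continuousAt]
  intro w
  by_cases hw : w = 0
  · subst hw
    have h0 : Filter.Tendsto (fun w : ℂ => Real.sqrt ‖w‖) (nhds 0) (nhds 0) := by
      have : Continuous (fun w : ℂ => Real.sqrt ‖w‖) := by fun_prop
      simpa using this.tendsto 0
    rw [ContinuousAt, norm_zero, Real.sqrt_zero]
    simp only [Complex.ofReal_zero, div_zero]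
    refine squeeze_zero_norm (fun w => ?_) h0
    rw [norm_div, Complex.norm_real, Real.norm_of_nonneg (Real.sqrt_nonneg _)]
    rw [Real.div_sqrt]
  · have h1 : ((Real.sqrt ‖w‖ : ℝ) : ℂ) ≠ 0 := by
      have : 0 < Real.sqrt ‖w‖ := Real.sqrt_pos.2 (norm_pos_iff.2 hw)
      exact_mod_cast this.ne'
    exact ContinuousAt.div continuousAt_id
      (Complex.continuous_ofReal.continuousAt.comp (by fun_prop)) h1

section

variable {A : Type*} [NonUnitalCStarAlgebra A]
variable {Ω : Type*} [TopologicalSpace Ω] [CompactSpace Ω] {p : Ω}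

theorem sepAt_of_p3 (h : P3 A) (Φ : A →⋆ₙₐ[ℂ] C(Ω, ℂ)) (hΦi : Function.Injective Φ)
    (hΦs : ∀ f : C(Ω, ℂ), f p = 0 → ∃ a, Φ a = f) (hΦp : ∀ a, Φ a p = 0) : SepAt Ω p := by
  intro f g a hf hg ha hfg
  have hcomm : ∀ x y : A, x * y = y * x := fun x y => hΦi (by
    rw [map_mul, map_mul, mul_comm])
  let κ : C(Ω, ℂ) := ⟨fun x => ((Real.sqrt (Real.sqrt ‖a x‖) : ℝ) : ℂ), by fun_prop⟩
  let a1 : C(Ω, ℂ) := ⟨fun x => a x / ((Real.sqrt ‖a x‖ : ℝ) : ℂ),
    continuous_div_sqrt.comp a.continuous⟩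
  let X : C(Ω, ℂ) := ⟨fun x => ((‖f x‖ - ‖g x‖ : ℝ) : ℂ), by fun_prop⟩
  let Y : C(Ω, ℂ) := ⟨fun x => ((‖f x‖ + ‖g x‖ : ℝ) : ℂ), by fun_prop⟩
  obtain ⟨k, hk⟩ := hΦs κ (by simp [κ, ha])
  obtain ⟨ξ, hξ⟩ := hΦs X (by simp [X, hf, hg])
  obtain ⟨η, hη⟩ := hΦs Y (by simp [Y, hf, hg])
  have hfg' : ∀ x, f x = 0 ∨ g x = 0 := fun x => by
    have := congrArg (fun r : C(Ω, ℂ) => r x) hfg
    simpa using this
  have hks : star k = k := hΦi (by rw [map_star, hk]; ext x; simp [κ])
  have hξs : star ξ = ξ := hΦi (by rw [map_star, hξ]; ext x; simp [X])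
  have hηs : star η = η := hΦi (by rw [map_star, hη]; ext x; simp [Y])
  have hXY : ξ * ξ = η * η := hΦi (by
    rw [map_mul, map_mul, hξ, hη]
    ext x
    rcases hfg' x with h | h <;> simp [X, Y, h])
  have h1 : IsPos !![k * k, k * η; star (k * η), η * η] := by
    have := isPos_gram (!![k, η] : Matrix (Fin 1) (Fin 2) A)
    convert this using 1
    ext i j
    fin_cases i <;> fin_cases j <;> simp [Matrix.mul_apply, hks, hηs]
  have h2 : IsPos !![η * η, ξ * k; star (ξ * k), k * k] := by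
    have := isPos_gram (!![ξ, k] : Matrix (Fin 1) (Fin 2) A)
    convert this using 1
    ext i j
    fin_cases i <;> fin_cases j <;> simp [Matrix.mul_apply, hks, hξs, hXY]
  obtain ⟨z, hz⟩ := h _ _ _ _ _ h1 h2
  have k1 := isPos_row_eq_zero hz ![η, -k, 0] (by
    simp only [Fin.sum_univ_three, Matrix.of_apply, Matrix.cons_val_zero, Matrix.cons_val_one,
      Matrix.cons_val, Matrix.cons_val', star_mul, hks, hηs, star_neg, star_zero, zero_mul,
      mul_zero, add_zero, mul_neg, neg_mul]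
    apply hΦi
    simp only [map_add, map_mul, map_neg, map_zero]
    ring) 2
  have k2 : star z * η = k * ξ * k := by
    simp only [Fin.sum_univ_three, Matrix.of_apply, Matrix.cons_val_zero, Matrix.cons_val_one,
      Matrix.cons_val, Matrix.cons_val', star_mul, hks, hξs, mul_zero, add_zero, mul_neg] at k1
    exact add_neg_eq_zero.1 k1
  have k3 : ∀ x, conj (Φ z x) * ((‖f x‖ + ‖g x‖ : ℝ) : ℂ)
      = ((Real.sqrt ‖a x‖ : ℝ) : ℂ) * ((‖f x‖ - ‖g x‖ : ℝ) : ℂ) := by
    intro x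
    have e1 := congrArg (fun r : C(Ω, ℂ) => r x) (congrArg Φ k2)
    simp only [map_mul, map_star, hk, hξ, hη, ContinuousMap.mul_apply, ContinuousMap.star_apply] at e1
    simp only [κ, X, Y, ContinuousMap.coe_mk] at e1
    rw [show star (Φ z x) = conj (Φ z x) from rfl] at e1
    rw [e1]
    have e2 : ((Real.sqrt ‖a x‖ : ℝ) : ℂ) = ((Real.sqrt (Real.sqrt ‖a x‖) : ℝ) : ℂ)
        * ((Real.sqrt (Real.sqrt ‖a x‖) : ℝ) : ℂ) := by
      rw [← Complex.ofReal_mul, Real.mul_self_sqrt (Real.sqrt_nonneg _)]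
    rw [e2]; ring
  have ha1 : ∀ x, a1 x * ((Real.sqrt ‖a x‖ : ℝ) : ℂ) = a x := by
    intro x
    simp only [a1, ContinuousMap.coe_mk]
    by_cases hx : a x = 0
    · simp [hx]
    · have h1 : ((Real.sqrt ‖a x‖ : ℝ) : ℂ) ≠ 0 := by
        have : 0 < Real.sqrt ‖a x‖ := Real.sqrt_pos.2 (norm_pos_iff.2 hx)
        exact_mod_cast this.ne'
      field_simp
  let H : C(Ω, ℂ) := ⟨fun x => a1 x * ((conj (Φ z x) + ((Real.sqrt ‖a x‖ : ℝ) : ℂ)) / 2), by
    fun_prop⟩
  refine ⟨H, by simp [H, hΦp, ha], ?_, ?_⟩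
  · ext x
    simp only [ContinuousMap.mul_apply]
    by_cases hx : f x = 0
    · simp [hx]
    · have hgx : g x = 0 := (hfg' x).resolve_left hx
      have hne : ((‖f x‖ : ℝ) : ℂ) ≠ 0 := by
        exact_mod_cast (norm_pos_iff.2 hx).ne'
      have e1 := k3 x
      rw [hgx, norm_zero, add_zero, sub_zero] at e1
      have e2 := mul_right_cancel₀ hne e1
      have e3 : H x = a x := by
        simp only [H, ContinuousMap.coe_mk]
        rw [e2]; linear_combination ha1 x
      rw [e3]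
  · ext x
    simp only [ContinuousMap.mul_apply, ContinuousMap.zero_apply]
    by_cases hx : g x = 0
    · simp [hx]
    · have hfx : f x = 0 := (hfg' x).resolve_right hx
      have hne : ((‖g x‖ : ℝ) : ℂ) ≠ 0 := by
        exact_mod_cast (norm_pos_iff.2 hx).ne'
      have e1 := k3 x
      rw [hfx, norm_zero, zero_add, zero_sub, Complex.ofReal_neg, mul_neg, ← neg_mul] at e1
      have e2 := mul_right_cancel₀ hne e1
      have e3 : H x = 0 := by
        simp only [H, ContinuousMap.coe_mk]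
        rw [e2]; simp
      rw [e3, zero_mul]

lemma p3_complex : P3 ℂ := by
  apply p3_of_douglas
  intro x y s h
  by_cases hy : y = 0
  · refine ⟨0, by simp, ?_⟩
    have h1 : (‖x‖ ^ 2 + ‖s‖ ^ 2 : ℝ) = 0 := by
      have := h
      rw [hy] at this
      simp only [Complex.star_def, map_zero, mul_zero] at this
      rw [mul_comm, Complex.mul_conj, mul_comm, Complex.mul_conj, Complex.normSq_eq_norm_sq,
        Complex.normSq_eq_norm_sq] at this
      exact_mod_cast this
    have h2 : ‖x‖ = 0 := by nlinarith [norm_nonneg x, norm_nonneg s]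
    rw [norm_eq_zero.1 h2, zero_mul]
  · refine ⟨x / y, ?_, by field_simp⟩
    have h1 : (‖x‖ ^ 2 + ‖s‖ ^ 2 : ℝ) = ‖y‖ ^ 2 := by
      have := h
      simp only [Complex.star_def] at this
      rw [mul_comm, Complex.mul_conj, mul_comm, Complex.mul_conj, mul_comm (conj y),
        Complex.mul_conj, Complex.normSq_eq_norm_sq,
        Complex.normSq_eq_norm_sq, Complex.normSq_eq_norm_sq] at this
      exact_mod_cast this
    rw [norm_div, div_le_one (norm_pos_iff.2 hy)]
    nlinarith [norm_nonneg x, norm_nonneg y, sq_nonneg ‖s‖]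

theorem p3_of_sepAt (hsep : SepAt Ω p) (Φ : A →⋆ₙₐ[ℂ] C(Ω, ℂ)) (hΦi : Function.Injective Φ)
    (hΦp : ∀ a, Φ a p = 0) (hΦs : ∀ f : C(Ω, ℂ), f p = 0 → ∃ a, Φ a = f) : P3 A := by
  intro a b c d e h1 h2
  -- pointwise data
  have m1 : ∀ x, IsPos !![Φ a x, Φ b x; star (Φ b x), Φ c x] := by
    intro x
    obtain ⟨B, hB⟩ := h1
    refine ⟨B.map (fun r => Φ r x), ?_⟩
    ext i j
    have := congrArg (fun r => Φ r x) (congrFun (congrFun hB i) j)
    fin_cases i <;> fin_cases j <;>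
      simpa [Matrix.mul_apply, map_add, map_mul, map_star] using this
  have m2 : ∀ x, IsPos !![Φ c x, Φ d x; star (Φ d x), Φ e x] := by
    intro x
    obtain ⟨B, hB⟩ := h2
    refine ⟨B.map (fun r => Φ r x), ?_⟩
    ext i j
    have := congrArg (fun r => Φ r x) (congrFun (congrFun hB i) j)
    fin_cases i <;> fin_cases j <;>
      simpa [Matrix.mul_apply, map_add, map_mul, map_star] using this
  let N : Ω → ℂ → Matrix (Fin 3) (Fin 3) ℂ := fun x y =>
    !![Φ a x, Φ b x, y; star (Φ b x), Φ c x, Φ d x; star y, star (Φ d x), Φ e x]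
  have hN : ∀ x, ∃ y, (N x y).PosSemidef := by
    intro x
    obtain ⟨y, hy⟩ := p3_complex _ _ _ _ _ (m1 x) (m2 x)
    exact ⟨y, (isPos_complex_iff _).1 hy⟩
  let u : C(Ω, ℝ) := ⟨fun x => (Φ a x).re + (Φ e x).re, by fun_prop⟩
  have hbd : ∀ x y, (N x y).PosSemidef → 0 ≤ u x ∧ ‖y‖ ≤ u x := by
    intro x y hy
    have ha := (Complex.le_def.1 (hy.diag_nonneg (i := 0)))
    have he := (Complex.le_def.1 (hy.diag_nonneg (i := 2)))
    have ha' : Φ a x = ((Φ a x).re : ℂ) := Complex.ext rfl (by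
      have := ha.2; simp [N] at this; simp [← this])
    have he' : Φ e x = ((Φ e x).re : ℂ) := Complex.ext rfl (by
      have := he.2; simp [N] at this; simp [← this])
    have ha0 : 0 ≤ (Φ a x).re := by simpa [N] using ha.1
    have he0 : 0 ≤ (Φ e x).re := by simpa [N] using he.1
    have hs := hy.submatrix ![(0 : Fin 3), 2]
    have hdet := hs.det_nonneg
    rw [Matrix.det_fin_two] at hdet
    simp only [Matrix.submatrix_apply, Matrix.cons_val_zero, Matrix.cons_val_one, N,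
      Matrix.of_apply, Matrix.cons_val', Matrix.cons_val] at hdet
    rw [ha', he', Complex.star_def, Complex.mul_conj, Complex.normSq_eq_norm_sq] at hdet
    have hdet' : ‖y‖ ^ 2 ≤ (Φ a x).re * (Φ e x).re := by
      have := (Complex.le_def.1 hdet).1
      simp at this
      have h3 : (((‖y‖ : ℂ)) ^ 2).re = ‖y‖ ^ 2 := by
        rw [← Complex.ofReal_pow, Complex.ofReal_re]
      rw [h3] at this
      linarith
    have hu : u x = (Φ a x).re + (Φ e x).re := rfl
    refine ⟨by rw [hu]; linarith, ?_⟩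
    rw [hu]
    nlinarith [norm_nonneg y, mul_nonneg ha0 he0, sq_nonneg ((Φ a x).re), sq_nonneg ((Φ e x).re)]
  have hu0 : ∀ x, 0 ≤ u x := fun x => by
    obtain ⟨y, hy⟩ := hN x
    exact (hbd x y hy).1
  have hup : u p = 0 := by simp [u, hΦp]
  obtain ⟨T, hTc, hTd⟩ := TopologicalSpace.exists_countable_dense (Fin 3 → ℂ)
  have : Countable T := hTc
  -- the quadratic form
  have hform : ∀ (x : Ω) (y : ℂ) (ξ : Fin 3 → ℂ), (star ξ ⬝ᵥ (N x y) *ᵥ ξ).re
      = (star ξ ⬝ᵥ (N x 0) *ᵥ ξ).re + 2 * (conj (ξ 0) * ξ 2 * y).re := by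
    intro x y ξ
    have : star ξ ⬝ᵥ (N x y) *ᵥ ξ = star ξ ⬝ᵥ (N x 0) *ᵥ ξ
        + (conj (ξ 0) * ξ 2 * y + conj (conj (ξ 0) * ξ 2 * y)) := by
      simp only [N, dotProduct, Matrix.mulVec, Fin.sum_univ_three, Pi.star_apply, Matrix.of_apply,
        Matrix.cons_val_zero, Matrix.cons_val_one, Matrix.cons_val', Matrix.cons_val,
        Complex.star_def, map_zero, map_mul, Complex.conj_conj]
      ring
    rw [this, Complex.add_re, Complex.add_conj]
    simp
  obtain ⟨h, hh0, hh⟩ := fm_complex hsep u hu0 hup (ι := Unit) (κ := T)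
    (fun ξ => Complex.reLm ∘ₗ (LinearMap.mulLeft ℝ (2 * (conj ((ξ : Fin 3 → ℂ) 0)
      * (ξ : Fin 3 → ℂ) 2))) ∘ₗ LinearMap.proj (R := ℝ) (φ := fun _ : Unit => ℂ) ())
    (fun ξ => ⟨fun x => -(star (ξ : Fin 3 → ℂ) ⬝ᵥ (N x 0) *ᵥ (ξ : Fin 3 → ℂ)).re, by
      simp only [N, dotProduct, Matrix.mulVec, Fin.sum_univ_three, Pi.star_apply, Matrix.of_apply,
        Matrix.cons_val_zero, Matrix.cons_val_one, Matrix.cons_val', Matrix.cons_val]
      fun_prop⟩) (by
    intro x
    obtain ⟨y, hy⟩ := hN x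
    refine ⟨fun _ => y, fun _ => (hbd x y hy).2, fun ξ => ?_⟩
    have h1 := hy.dotProduct_mulVec_nonneg (ξ : Fin 3 → ℂ)
    have h2 := (Complex.le_def.1 h1).1
    rw [hform, Complex.zero_re] at h2
    simp only [ContinuousMap.coe_mk, LinearMap.comp_apply, LinearMap.mulLeft_apply,
      Complex.reLm_coe, LinearMap.proj_apply]
    have h3 : (2 * (conj ((ξ : Fin 3 → ℂ) 0) * (ξ : Fin 3 → ℂ) 2) * y).re
        = 2 * (conj ((ξ : Fin 3 → ℂ) 0) * (ξ : Fin 3 → ℂ) 2 * y).re := by
      rw [mul_assoc, re_two_mul']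
    linarith)
  obtain ⟨y, hy⟩ := hΦs (h ()) (hh0 ())
  refine ⟨y, ?_⟩
  have hre : ∀ x (ξ : Fin 3 → ℂ), 0 ≤ (star ξ ⬝ᵥ (N x (h () x)) *ᵥ ξ).re := by
    intro x
    have hcl : IsClosed {ξ : Fin 3 → ℂ | 0 ≤ (star ξ ⬝ᵥ (N x (h () x)) *ᵥ ξ).re} := by
      apply isClosed_le continuous_const
      simp only [dotProduct, Matrix.mulVec, Pi.star_apply]
      fun_prop
    have hsub : T ⊆ {ξ : Fin 3 → ℂ | 0 ≤ (star ξ ⬝ᵥ (N x (h () x)) *ᵥ ξ).re} := by
      intro ξ hξ
      have h3 := hh ⟨ξ, hξ⟩ x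
      simp only [ContinuousMap.coe_mk, LinearMap.comp_apply, LinearMap.mulLeft_apply,
        Complex.reLm_coe, LinearMap.proj_apply] at h3
      have h4 : (2 * (conj (ξ 0) * ξ 2) * h () x).re
        = 2 * (conj (ξ 0) * ξ 2 * h () x).re := by
        rw [mul_assoc, re_two_mul']
      show 0 ≤ (star ξ ⬝ᵥ (N x (h () x)) *ᵥ ξ).re
      rw [hform]
      linarith
    intro ξ
    exact hcl.closure_subset_iff.2 hsub (hTd ξ)
  have hpsd : ∀ x, (N x (h () x)).PosSemidef := by
    intro x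
    obtain ⟨y0, hy0⟩ := hN x
    have hherm : (N x (h () x)).IsHermitian := by
      have e := hy0.1
      have ea := e.apply 0 0
      have ec := e.apply 1 1
      have ee := e.apply 2 2
      simp only [N, Matrix.of_apply, Matrix.cons_val_zero, Matrix.cons_val_one, Matrix.cons_val',
        Matrix.cons_val] at ea ec ee
      ext i j
      fin_cases i <;> fin_cases j <;>
        simp [N, Matrix.conjTranspose_apply] <;> first | exact ea | exact ec | exact ee
    refine Matrix.PosSemidef.of_dotProduct_mulVec_nonneg hherm fun ξ => ?_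
    have him : (star ξ ⬝ᵥ (N x (h () x)) *ᵥ ξ).im = 0 := by
      have := hherm.im_star_dotProduct_mulVec_self ξ
      simpa using this
    rw [Complex.le_def]
    exact ⟨hre x ξ, him.symm⟩
  -- the square root
  let M : Matrix (Fin 3) (Fin 3) A :=
    !![a, b, y; star b, c, d; star y, star d, e]
  have hMN : ∀ x, (M.map Φ).map (fun f => f x) = N x (h () x) := by
    intro x
    ext i j
    fin_cases i <;> fin_cases j <;> simp [M, N, hy, map_star]
  obtain ⟨B', hB', hB'0⟩ := exists_sqrt (M.map Φ) (fun x => by rw [hMN]; exact hpsd x)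
  choose B hB using fun i j => hΦs (B' i j) (hB'0 p (fun i j => by simp [hΦp]) i j)
  refine ⟨Matrix.of B, ?_⟩
  ext i j
  apply hΦi
  have := congrFun (congrFun hB' i) j
  simp only [Matrix.map_apply, Matrix.mul_apply, Matrix.conjTranspose_apply] at this
  show Φ (M i j) = Φ (((Matrix.of B)ᴴ * Matrix.of B) i j)
  rw [this]
  simp only [Matrix.mul_apply, Matrix.conjTranspose_apply, Matrix.of_apply]
  rw [map_sum]
  simp only [map_mul, map_star, hB]

end

universe u

theorem p3_iff_sigmaSep (A : Type u) [NonUnitalCStarAlgebra A]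
    (hcomm : ∀ x y : A, x * y = y * x) :
    P3 A ↔ SigmaSep (WeakDual.characterSpace ℂ A) := by
  obtain ⟨Ω, _, _, _, p, Φ, hΦi, hΦp, hΦs⟩ := exists_gelfand A hcomm
  rw [← algSep_iff_sigmaSep A hcomm, ← sepAt_iff_algSep Φ hΦi hΦp hΦs]
  exact ⟨fun h => sepAt_of_p3 h Φ hΦi hΦs hΦp, fun h => p3_of_sepAt h Φ hΦi hΦp hΦs⟩

end Pool.Agent.H275CG
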