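import Mathlib
import Pool.Agent.H275.CG.Defs
import Pool.Agent.H275.CG.Unital

set_option autoImplicit false

open scoped Matrix Topology
open Filter

namespace Pool.Agent.H275CG

open Pool.Agent.Helper917 (IsPos)

/-- No self-adjoint element has a nonzero accumulation point in its (quasi)spectrum. -/
def NoAcc (A : Type*) [NonUnitalCStarAlgebra A] : Prop :=
  ∀ h : A, IsSelfAdjoint h → ∀ μ : ℝ, μ ≠ 0 → ¬ AccPt μ (𝓟 (quasispectrum ℝ h))

lemma not_countable_bool : ¬ Countable (ℕ → Bool) := by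
  intro h
  have := Cardinal.mk_le_aleph0 (α := ℕ → Bool)
  simp only [Cardinal.mk_pi, Cardinal.mk_bool, Cardinal.prod_const, Cardinal.mk_nat,
    Cardinal.lift_uzero] at this
  exact absurd this (not_le.2 (Cardinal.cantor _))

section

variable {A : Type*} [NonUnitalCStarAlgebra A]

/-- a sequence accumulating geometrically at `μ` -/
lemma exists_seq {S : Set ℝ} {μ : ℝ} (hμ : μ ≠ 0) (h : AccPt μ (𝓟 S)) :
    ∃ t : ℕ → ℝ, (∀ n, t n ∈ S) ∧ (∀ n, 0 < |t n - μ|) ∧ (∀ n, |t n - μ| < |μ| / 4) ∧
      ∀ n m, n < m → |t m - μ| < |t n - μ| / 2 := by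
  have key : ∀ ε : ℝ, 0 < ε → ∃ y ∈ S, 0 < |y - μ| ∧ |y - μ| < ε := by
    intro ε hε
    rw [accPt_iff_frequently] at h
    obtain ⟨y, hy1, hy2⟩ := (h.and_eventually (Metric.ball_mem_nhds μ hε)).exists
    refine ⟨y, hy1.2, abs_pos.2 (sub_ne_zero.2 hy1.1), ?_⟩
    simpa [Real.dist_eq] using hy2
  choose! F hF1 hF2 hF3 using key
  let t : ℕ → ℝ := fun n => Nat.rec (F (|μ| / 4)) (fun _ x => F (|x - μ| / 2)) n
  have t0 : t 0 = F (|μ| / 4) := rfl
  have ts : ∀ n, t (n + 1) = F (|t n - μ| / 2) := fun n => rfl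
  have hm : 0 < |μ| / 4 := by have := abs_pos.2 hμ; linarith
  have hpos : ∀ n, 0 < |t n - μ| := by
    intro n
    induction n with
    | zero => exact hF2 _ hm
    | succ n ih => rw [ts]; exact hF2 _ (by linarith)
  have hS : ∀ n, t n ∈ S := by
    intro n
    cases n with
    | zero => exact hF1 _ hm
    | succ n => rw [ts]; exact hF1 _ (by linarith [hpos n])
  have hstep : ∀ n, |t (n + 1) - μ| < |t n - μ| / 2 := by
    intro n; rw [ts]; exact hF3 _ (by linarith [hpos n])
  have hlt : ∀ n m, n < m → |t m - μ| < |t n - μ| / 2 := by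
    intro n m hnm
    induction m, hnm using Nat.le_induction with
    | base => exact hstep n
    | succ m _ ih => linarith [hstep m, hpos m]
  refine ⟨t, hS, hpos, ?_, hlt⟩
  intro n
  cases n with
  | zero => exact hF3 _ hm
  | succ n =>
    have h1 := hlt 0 (n + 1) (Nat.succ_pos n)
    have h2 : |t 0 - μ| < |μ| / 4 := hF3 _ hm
    linarith [hpos 0]

theorem noAcc_of_p3 [TopologicalSpace.SeparableSpace A] (hP : P3 A) : NoAcc A := by
  intro h hsa μ hμ hacc
  obtain ⟨t, hS, hpos, hsmall, hlt⟩ := exists_seq hμ hacc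
  let B : ℕ → ℝ → ℝ := fun n x => max 0 (1 - 4 * |x - t n| / |t n - μ|)
  have hBc : ∀ n, Continuous (B n) := by
    intro n
    simp only [B]
    fun_prop
  have hB0 : ∀ n x, B n x ≠ 0 → |x - t n| < |t n - μ| / 4 := by
    intro n x hx
    by_contra hcon
    apply hx
    apply max_eq_left
    have h1 := hpos n
    rw [sub_nonpos, le_div_iff₀ h1]
    linarith [not_lt.1 hcon]
  have hBr : ∀ n x, 0 ≤ B n x ∧ B n x ≤ 1 := by
    intro n x
    refine ⟨le_max_left _ _, max_le zero_le_one ?_⟩
    have : 0 ≤ 4 * |x - t n| / |t n - μ| := by positivity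
    linarith
  have hBt : ∀ n, B n (t n) = 1 := by
    intro n; simp [B]
  have hBz : ∀ n, B n 0 = 0 := by
    intro n
    by_contra hne
    have h1 := hB0 n 0 hne
    have h2 := hsmall n
    have h3 := hpos n
    rw [zero_sub, abs_neg] at h1
    have h4 : |μ| ≤ |t n| + |t n - μ| := by
      have := abs_sub_abs_le_abs_sub μ (t n)
      rw [abs_sub_comm μ (t n)] at this
      linarith
    linarith
  have hBB : ∀ n m, n ≠ m → ∀ x, B n x * B m x = 0 := by
    have aux : ∀ n m, n < m → ∀ x, B n x * B m x = 0 := by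
      intro n m hnm x
      by_contra hne
      have h1 := hB0 n x (left_ne_zero_of_mul hne)
      have h2 := hB0 m x (right_ne_zero_of_mul hne)
      have h3 := hlt n m hnm
      have h4 : |t n - μ| ≤ |x - t n| + |x - μ| := by
        have : t n - μ = -(x - t n) + (x - μ) := by ring
        rw [this]
        exact (abs_add_le _ _).trans (by rw [abs_neg])
      have h5 : |x - μ| ≤ |x - t m| + |t m - μ| := by
        have : x - μ = (x - t m) + (t m - μ) := by ring
        rw [this]
        exact abs_add_le _ _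
      linarith [hpos n, hpos m]
    intro n m hnm x
    rcases lt_or_gt_of_ne hnm with h1 | h1
    · exact aux n m h1 x
    · rw [mul_comm]; exact aux m n h1 x
  let θ : ℝ → ℝ := fun x => max 0 (min 1 (2 - 2 * |x - μ| / |μ|))
  have hθc : Continuous θ := by
    simp only [θ]; fun_prop
  have hμ' : 0 < |μ| := abs_pos.2 hμ
  have hθ0 : θ 0 = 0 := by
    simp only [θ]
    rw [zero_sub, abs_neg, mul_div_assoc, div_self hμ'.ne']
    norm_num
  have hθB : ∀ n x, θ x * B n x = B n x := by
    intro n x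
    by_cases hx : B n x = 0
    · rw [hx, mul_zero]
    · have h1 := hB0 n x hx
      have h2 := hsmall n
      have h5 : |x - μ| ≤ |x - t n| + |t n - μ| := by
        have : x - μ = (x - t n) + (t n - μ) := by ring
        rw [this]
        exact abs_add_le _ _
      have h6 : |x - μ| ≤ |μ| / 2 := by linarith
      have h7 : θ x = 1 := by
        simp only [θ]
        have h8 : 2 * |x - μ| / |μ| ≤ 1 := by
          rw [div_le_one hμ']; linarith
        rw [min_eq_left (by linarith), max_eq_right zero_le_one]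
      rw [h7, one_mul]
  -- the elements
  let φ : ℕ → A := fun n => cfcₙ (B n) h
  let e : A := cfcₙ θ h
  have hφs : ∀ n, star (φ n) = φ n := fun n => cfcₙ_predicate (R := ℝ) (B n) h
  have hes : star e = e := cfcₙ_predicate (R := ℝ) θ h
  have hφφ : ∀ n m, n ≠ m → φ n * φ m = 0 := by
    intro n m hnm
    simp only [φ]
    rw [← cfcₙ_mul (B n) (B m) h (hBc n).continuousOn (hBz n) (hBc m).continuousOn (hBz m)]
    rw [show (fun x => B n x * B m x) = fun _ => (0 : ℝ) from funext (hBB n m hnm)]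
    exact cfcₙ_const_zero ℝ h
  have heφ : ∀ n, e * φ n = φ n := by
    intro n
    simp only [φ, e]
    rw [← cfcₙ_mul θ (B n) h hθc.continuousOn hθ0 (hBc n).continuousOn (hBz n)]
    rw [show (fun x => θ x * B n x) = B n from funext (hθB n)]
  have hφ1 : ∀ n, ‖φ n‖ ≤ 1 := by
    intro n
    refine norm_cfcₙ_le fun x _ => ?_
    rw [Real.norm_of_nonneg (hBr n x).1]
    exact (hBr n x).2
  have hφ2 : ∀ n, φ n * φ n ≠ 0 := by
    intro n h0
    have h1 : 1 ≤ ‖φ n‖ := by
      have := norm_apply_le_norm_cfcₙ (B n) h (hS n) (hBc n).continuousOn (hBz n) hsa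
      rwa [hBt, norm_one] at this
    have h2 : ‖star (φ n) * φ n‖ = ‖φ n‖ * ‖φ n‖ := CStarRing.norm_star_mul_self
    rw [hφs, h0, norm_zero] at h2
    nlinarith
  have hsum : ∀ s : ℕ → ℝ, (∀ n, |s n| = 1) → Summable (fun n => ((1 / 2 : ℝ) ^ n * s n) • φ n) := by
    intro s hs
    refine Summable.of_norm_bounded (g := fun n : ℕ => (1 / 2 : ℝ) ^ n) summable_geometric_two
      fun n => ?_
    rw [norm_smul, norm_mul, Real.norm_eq_abs (s n), hs n, mul_one]
    have h2 : ‖(1 / 2 : ℝ) ^ n‖ = (1 / 2 : ℝ) ^ n := Real.norm_of_nonneg (by positivity)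
    rw [h2]
    have : (0 : ℝ) ≤ (1 / 2) ^ n := by positivity
    nlinarith [hφ1 n]
  let y : (ℕ → ℝ) → A := fun s => ∑' n, ((1 / 2 : ℝ) ^ n * s n) • φ n
  have hys : ∀ s : ℕ → ℝ, (∀ n, |s n| = 1) → star (y s) = y s := by
    intro s hs
    have h1 := (hsum s hs).hasSum.star
    have h2 : (fun n => star (((1 / 2 : ℝ) ^ n * s n) • φ n))
        = fun n => ((1 / 2 : ℝ) ^ n * s n) • φ n := by
      funext n; rw [star_smul, hφs, star_trivial]
    rw [h2] at h1
    exact h1.unique (hsum s hs).hasSum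
  have hyφ : ∀ s : ℕ → ℝ, (∀ n, |s n| = 1) → ∀ m,
      y s * φ m = ((1 / 2 : ℝ) ^ m * s m) • (φ m * φ m) := by
    intro s hs m
    simp only [y]
    rw [← (hsum s hs).tsum_mul_right, tsum_eq_single m]
    · rw [smul_mul_assoc]
    · intro n hn; rw [smul_mul_assoc, hφφ n m hn, smul_zero]
  have hφy : ∀ s : ℕ → ℝ, (∀ n, |s n| = 1) → ∀ m,
      φ m * y s = ((1 / 2 : ℝ) ^ m * s m) • (φ m * φ m) := by
    intro s hs m
    have := congrArg star (hyφ s hs m)
    rw [star_mul (y s) (φ m), hφs, hys s hs, star_smul, star_trivial, star_mul (φ m) (φ m),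
      hφs] at this
    exact this
  have hey : ∀ s : ℕ → ℝ, (∀ n, |s n| = 1) → e * y s = y s := by
    intro s hs
    simp only [y]
    rw [← (hsum s hs).tsum_mul_left]
    congr 1
    funext n
    rw [mul_smul_comm, heφ]
  have hyy : ∀ s : ℕ → ℝ, (∀ n, |s n| = 1) →
      y s * y s = ∑' n, ((1 / 4 : ℝ) ^ n) • (φ n * φ n) := by
    intro s hs
    have h1 : y s * y s = ∑' n, (((1 / 2 : ℝ) ^ n * s n) • φ n) * y s :=
      ((hsum s hs).tsum_mul_right (y s)).symm
    rw [h1]
    congr 1
    funext n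
    rw [smul_mul_assoc, hφy s hs, smul_smul]
    congr 1
    have h2 : s n * s n = 1 := by
      rw [← abs_mul_abs_self, hs n, mul_one]
    calc (1 / 2 : ℝ) ^ n * s n * ((1 / 2) ^ n * s n)
        = ((1 / 2 : ℝ) ^ n * (1 / 2) ^ n) * (s n * s n) := by ring
      _ = (1 / 4) ^ n := by rw [h2, mul_one, ← mul_pow]; norm_num
  -- the completions
  have key : ∀ s : ℕ → ℝ, (∀ n, |s n| = 1) → ∃ z : A, ∀ m,
      z * (φ m * φ m) = s m • (φ m * φ m) := by
    intro s hs
    let o : ℕ → ℝ := fun _ => 1
    have ho : ∀ n, |o n| = 1 := fun n => by simp [o]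
    have c1 : star (y o) = y o := hys o ho
    have c2 : star (y s) = y s := hys s hs
    have c3 : e * y o = y o := hey o ho
    have c4 : e * y s = y s := hey s hs
    have c5 : y s * y s = y o * y o := by rw [hyy s hs, hyy o ho]
    have c3' : y o * e = y o := by
      have := congrArg star c3
      rwa [star_mul, c1, hes] at this
    have c4' : y s * e = y s := by
      have := congrArg star c4
      rwa [star_mul, c2, hes] at this
    have h1 : IsPos !![e * e, y o; star (y o), y o * y o] := by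
      have := isPos_gram (!![e, y o] : Matrix (Fin 1) (Fin 2) A)
      convert this using 1
      ext i j
      fin_cases i <;> fin_cases j <;> simp [Matrix.mul_apply, hes, c1, c3, c3']
    have h2 : IsPos !![y o * y o, y s; star (y s), e * e] := by
      have := isPos_gram (!![y s, e] : Matrix (Fin 1) (Fin 2) A)
      convert this using 1
      ext i j
      fin_cases i <;> fin_cases j <;> simp [Matrix.mul_apply, hes, c2, c4, c4', c5]
    obtain ⟨z, hz⟩ := hP _ _ _ _ _ h1 h2
    refine ⟨star z, fun m => ?_⟩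
    have k1 := isPos_row_eq_zero hz ![y o * φ m, -φ m, 0] (by
      simp only [Fin.sum_univ_three, Matrix.of_apply, Matrix.cons_val_zero, Matrix.cons_val_one,
        Matrix.cons_val, Matrix.cons_val', mul_zero, add_zero, star_zero, zero_mul]
      rw [c1]
      have e1 : e * e * (y o * φ m) + y o * -φ m = 0 := by
        rw [mul_neg, mul_assoc, ← mul_assoc e (y o), c3, ← mul_assoc, c3, add_neg_cancel]
      have e2 : y o * (y o * φ m) + y o * y o * -φ m = 0 := by
        rw [mul_neg, mul_assoc, add_neg_cancel]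
      rw [e1, e2, mul_zero, mul_zero, add_zero]) 2
    have k2 : star z * (y o * φ m) = y s * φ m := by
      simp only [Fin.sum_univ_three, Matrix.of_apply, Matrix.cons_val_zero, Matrix.cons_val_one,
        Matrix.cons_val, Matrix.cons_val', mul_zero, add_zero, mul_neg] at k1
      rw [c2] at k1
      exact add_neg_eq_zero.1 k1
    rw [hyφ o ho, hyφ s hs, mul_smul_comm] at k2
    have h3 : (1 / 2 : ℝ) ^ m * o m ≠ 0 := by simp [o]
    have h4 : ((1 / 2 : ℝ) ^ m * s m) • (φ m * φ m)
        = ((1 / 2 : ℝ) ^ m * o m) • (s m • (φ m * φ m)) := by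
      rw [smul_smul]; simp [o]
    rw [h4] at k2
    exact smul_right_injective A h3 k2
  -- separability
  choose! Z hZ using key
  let sg : (ℕ → Bool) → ℕ → ℝ := fun b n => if b n then 1 else -1
  have hsg : ∀ b n, |sg b n| = 1 := by
    intro b n; simp only [sg]; split_ifs <;> simp
  apply not_countable_bool
  refine Pairwise.countable_of_isOpen_disjoint (s := fun b : ℕ → Bool => Metric.ball (Z (sg b)) 1)
    ?_ (fun b => Metric.isOpen_ball) (fun b => ⟨_, Metric.mem_ball_self one_pos⟩)
  intro b b' hbb'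
  obtain ⟨m, hm⟩ := Function.ne_iff.1 hbb'
  refine Set.disjoint_left.2 fun w hw hw' => ?_
  have hd : dist (Z (sg b)) (Z (sg b')) < 2 := by
    have h1 := Metric.mem_ball.1 hw
    have h2 := Metric.mem_ball.1 hw'
    have := dist_triangle_left (Z (sg b)) (Z (sg b')) w
    linarith
  rw [dist_eq_norm] at hd
  have e1 : (Z (sg b) - Z (sg b')) * (φ m * φ m) = (sg b m - sg b' m) • (φ m * φ m) := by
    rw [sub_mul, hZ _ (hsg b), hZ _ (hsg b'), sub_smul]
  have e2 : |sg b m - sg b' m| = 2 := by
    simp only [sg]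
    rcases hb : b m with _ | _ <;> rcases hb' : b' m with _ | _
    · exact absurd (hb.trans hb'.symm) hm
    · norm_num
    · norm_num
    · exact absurd (hb.trans hb'.symm) hm
  have e3 : 2 * ‖φ m * φ m‖ ≤ ‖Z (sg b) - Z (sg b')‖ * ‖φ m * φ m‖ := by
    have := norm_mul_le (Z (sg b) - Z (sg b')) (φ m * φ m)
    rw [e1, norm_smul, Real.norm_eq_abs, e2] at this
    exact this
  have e4 : 0 < ‖φ m * φ m‖ := norm_pos_iff.2 (hφ2 m)
  nlinarith

end

end Pool.Agent.H275CG
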