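import Mathlib
import Pool.Agent.H275.CG.Defs
import Pool.Agent.H275.CG.Sep

set_option autoImplicit false

open scoped Matrix Topology
open Filter

namespace Pool.Agent.H275CG

open Pool.Agent.Helper917 (IsPos)

section

variable {A : Type*} [NonUnitalCStarAlgebra A]

/-- projections -/
def Proj (p : A) : Prop := star p = p ∧ p * p = p

/-- minimal projections (`0` is allowed) -/
def MinP (e : A) : Prop := Proj e ∧ ∀ x : A, ∃ c : ℂ, e * x * e = c • e

lemma continuousOn_of_noAcc {σ : Set ℝ} (hσ : ∀ μ : ℝ, μ ≠ 0 → ¬ AccPt μ (𝓟 σ)) {f : ℝ → ℝ}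
    (hf : ∀ᶠ x in 𝓝 (0 : ℝ), f x = 0) : ContinuousOn f σ := by
  intro x _
  by_cases hx : x = 0
  · subst hx
    have h0 : f 0 = 0 := hf.self_of_nhds
    rw [ContinuousWithinAt, h0]
    refine (tendsto_const_nhds (x := (0 : ℝ))).congr' ?_
    filter_upwards [nhdsWithin_le_nhds hf] with y hy
    exact hy.symm
  · have h1 := hσ x hx
    rw [accPt_iff_frequently, not_frequently] at h1
    rw [ContinuousWithinAt]
    refine (tendsto_const_nhds (x := f x)).congr' ?_
    filter_upwards [nhdsWithin_le_nhds h1, self_mem_nhdsWithin] with y hy hy'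
    by_contra hne
    exact hy ⟨fun h => hne (by rw [h]), hy'⟩

lemma mem_quasispectrum {h s : A} {μ : ℝ} (hs : s ≠ 0) (hhs : h * s = μ • s) :
    μ ∈ quasispectrum ℝ h := by
  rw [Unitization.quasispectrum_eq_spectrum_inr' ℝ ℂ h, spectrum.mem_iff]
  intro hu
  apply hs
  have h1 : (algebraMap ℝ (Unitization ℂ A) μ - (h : Unitization ℂ A)) * (s : Unitization ℂ A)
      = 0 := by
    rw [sub_mul, ← Unitization.inr_mul, hhs, Algebra.algebraMap_eq_smul_one, smul_mul_assoc,
      one_mul, ← Unitization.inr_smul, sub_self]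
  have h2 := (hu.mul_right_eq_zero).1 h1
  exact Unitization.inr_injective (by simpa using h2)

lemma exists_ne_zero_mem {y : A} (hy : IsSelfAdjoint y) (hy0 : y ≠ 0) :
    ∃ μ : ℝ, μ ≠ 0 ∧ μ ∈ quasispectrum ℝ y := by
  by_contra hcon
  push Not at hcon
  apply hy0
  rw [← cfcₙ_id' ℝ y, ← cfcₙ_const_zero ℝ y]
  refine cfcₙ_congr fun x hx => ?_
  by_contra hne
  exact hcon x hne hx

lemma spectral_proj (hA : NoAcc A) {y : A} (hy : IsSelfAdjoint y) {μ : ℝ} (hμ : μ ≠ 0)
    (hmem : μ ∈ quasispectrum ℝ y) : ∃ e : A, Proj e ∧ e ≠ 0 ∧ y * e = μ • e := by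
  let f : ℝ → ℝ := fun x => if x = μ then 1 else 0
  have hf0 : f 0 = 0 := by simp [f, hμ.symm]
  have hfc : ContinuousOn f (quasispectrum ℝ y) := by
    refine continuousOn_of_noAcc (hA y hy) ?_
    filter_upwards [isOpen_ne.mem_nhds hμ.symm] with x hx
    exact if_neg hx
  refine ⟨cfcₙ f y, ⟨cfcₙ_predicate (R := ℝ) f y, ?_⟩, ?_, ?_⟩
  · rw [← cfcₙ_mul f f y hfc hf0 hfc hf0]
    congr 1
    funext x
    simp only [f]
    split_ifs <;> simp
  · intro h0
    have := norm_apply_le_norm_cfcₙ f y hmem hfc hf0 hy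
    rw [h0, norm_zero] at this
    simp [f] at this
    linarith
  · conv_lhs => rw [show y * cfcₙ f y = cfcₙ (fun x => x) y * cfcₙ f y by rw [cfcₙ_id' ℝ y]]
    rw [← cfcₙ_mul (fun x => x) f y continuousOn_id rfl hfc hf0,
      ← cfcₙ_smul μ f y hfc hf0]
    congr 1
    funext x
    simp only [f, smul_eq_mul]
    split_ifs with h
    · rw [h]
    · simp

/-- cutting off the small part -/
lemma cut_proj (hA : NoAcc A) {a : A} (ha : IsSelfAdjoint a) {δ : ℝ} (hδ : 0 < δ) :
    ∃ p : A, Proj p ∧ ‖a - p * a - a * p + p * a * p‖ ≤ δ := by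
  let f : ℝ → ℝ := fun x => if δ ≤ |x| then 1 else 0
  have hf0 : f 0 = 0 := by simp [f, hδ]
  have hfc : ContinuousOn f (quasispectrum ℝ a) := by
    refine continuousOn_of_noAcc (hA a ha) ?_
    filter_upwards [Metric.ball_mem_nhds (0 : ℝ) hδ] with x hx
    rw [Metric.mem_ball, dist_zero_right, Real.norm_eq_abs] at hx
    exact if_neg (not_le.2 hx)
  have hff : ∀ x, f x * f x = f x := by
    intro x; simp only [f]; split_ifs <;> simp
  have hpp : cfcₙ f a * cfcₙ f a = cfcₙ f a := by
    rw [← cfcₙ_mul f f a hfc hf0 hfc hf0]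
    congr 1
    funext x
    exact hff x
  refine ⟨cfcₙ f a, ⟨cfcₙ_predicate (R := ℝ) f a, hpp⟩, ?_⟩
  have e1 : cfcₙ f a * a = cfcₙ (fun x => f x * x) a := by
    rw [cfcₙ_mul f (fun x => x) a hfc hf0 continuousOn_id rfl, cfcₙ_id' ℝ a]
  have e2 : a * cfcₙ f a = cfcₙ (fun x => f x * x) a := by
    rw [show (fun x => f x * x) = fun x => x * f x from funext fun x => mul_comm _ _,
      cfcₙ_mul (fun x => x) f a continuousOn_id rfl hfc hf0, cfcₙ_id' ℝ a]
  have e3 : cfcₙ f a * a * cfcₙ f a = cfcₙ (fun x => f x * x) a := by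
    rw [mul_assoc, e2, ← e1, ← mul_assoc, hpp]
  have e4 : a - cfcₙ f a * a - a * cfcₙ f a + cfcₙ f a * a * cfcₙ f a
      = cfcₙ (fun x => x - f x * x) a := by
    rw [e3, e1, e2, sub_add_cancel,
      cfcₙ_sub (fun x => x) (fun x => f x * x) a continuousOn_id rfl (hfc.mul continuousOn_id)
        (by simp), cfcₙ_id' ℝ a]
  rw [e4]
  refine norm_cfcₙ_le fun x _ => ?_
  simp only [f]
  split_ifs with h
  · simpa using hδ.le
  · rw [zero_mul, sub_zero, Real.norm_eq_abs]; exact (not_le.1 h).le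

lemma norm_proj_le {p : A} (hp : Proj p) : ‖p‖ ≤ 1 := by
  have h := CStarRing.norm_star_mul_self (x := p)
  rw [hp.1, hp.2] at h
  by_contra hcon
  nlinarith [norm_nonneg p]

lemma exists_split (hA : NoAcc A) {p : A} (hp : Proj p) (hn : ¬ MinP p) :
    ∃ e f : A, Proj e ∧ Proj f ∧ e ≠ 0 ∧ f ≠ 0 ∧ p = e + f ∧ e * f = 0 ∧ f * e = 0 := by
  have h1 : ∃ x : A, IsSelfAdjoint x ∧ ∀ c : ℂ, p * x * p ≠ c • p := by
    by_contra hcon
    push Not at hcon
    apply hn
    refine ⟨hp, fun x => ?_⟩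
    obtain ⟨c1, hc1⟩ := hcon (realPart x) (realPart x).2
    obtain ⟨c2, hc2⟩ := hcon (imaginaryPart x) (imaginaryPart x).2
    refine ⟨c1 + Complex.I * c2, ?_⟩
    conv_lhs => rw [← realPart_add_I_smul_imaginaryPart x]
    rw [mul_add, add_mul, mul_smul_comm, smul_mul_assoc, hc1, hc2, smul_smul, ← add_smul]
  obtain ⟨x, hx, hne⟩ := h1
  have hy : IsSelfAdjoint (p * x * p) := by
    rw [isSelfAdjoint_iff, star_mul, star_mul, hp.1, hx.star_eq, mul_assoc]
  have hy0 : p * x * p ≠ 0 := by
    have := hne 0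
    rwa [zero_smul] at this
  obtain ⟨μ, hμ, hmem⟩ := exists_ne_zero_mem hy hy0
  obtain ⟨e, he, he0, hye⟩ := spectral_proj hA hy hμ hmem
  have hpe : p * e = e := by
    have h2 : μ • (p * e) = μ • e := by
      rw [← mul_smul_comm, ← hye]
      simp only [← mul_assoc, hp.2]
    exact smul_right_injective A hμ h2
  have hep : e * p = e := by
    have := congrArg star hpe
    rwa [star_mul, he.1, hp.1] at this
  refine ⟨e, p - e, he, ⟨by rw [star_sub, hp.1, he.1], ?_⟩, he0, ?_, by abel, ?_, ?_⟩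
  · rw [sub_mul, mul_sub, mul_sub, hp.2, hpe, hep, he.2]; abel
  · intro h0
    have h3 : p = e := sub_eq_zero.1 h0
    apply hne (μ : ℂ)
    have h4 : p * x * p = μ • e := by
      have : p * x * p * e = p * x * p := by rw [← h3, mul_assoc (p * x), hp.2]
      rw [← hye, this]
    rw [h4, ← h3]
    rfl
  · rw [mul_sub, hep, he.2, sub_self]
  · rw [sub_mul, hpe, he.2, sub_self]

/-- Every projection is a finite sum of minimal ones. -/
theorem mem_closure_minP (hA : NoAcc A) {p : A} (hp : Proj p) :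
    p ∈ AddSubmonoid.closure {e : A | MinP e} := by
  by_contra hbad
  have step : ∀ p : A, (Proj p ∧ p ∉ AddSubmonoid.closure {e : A | MinP e}) →
      ∃ p' s : A, (Proj p' ∧ p' ∉ AddSubmonoid.closure {e : A | MinP e}) ∧ Proj s ∧ s ≠ 0 ∧
        p = p' + s ∧ p' * s = 0 ∧ s * p' = 0 := by
    rintro p ⟨hp, hb⟩
    have hn : ¬ MinP p := fun h => hb (AddSubmonoid.subset_closure h)
    obtain ⟨e, f, he, hf, he0, hf0, hsum, hef, hfe⟩ := exists_split hA hp hn
    by_cases h1 : e ∈ AddSubmonoid.closure {e : A | MinP e}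
    · have h2 : f ∉ AddSubmonoid.closure {e : A | MinP e} := by
        intro h2
        exact hb (hsum ▸ add_mem h1 h2)
      exact ⟨f, e, ⟨hf, h2⟩, he, he0, by rw [hsum, add_comm], hfe, hef⟩
    · exact ⟨e, f, ⟨he, h1⟩, hf, hf0, hsum, hef, hfe⟩
  choose! F G hF1 hG1 hG2 hFG1 hFG2 hFG3 using step
  let P : ℕ → A := fun n => Nat.rec p (fun _ x => F x) n
  have hP0 : P 0 = p := rfl
  have hPs : ∀ n, P (n + 1) = F (P n) := fun n => rfl
  have hPb : ∀ n, Proj (P n) ∧ P n ∉ AddSubmonoid.closure {e : A | MinP e} := by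
    intro n
    induction n with
    | zero => exact ⟨hp, hbad⟩
    | succ n ih => rw [hPs]; exact hF1 _ ih
  let s : ℕ → A := fun n => G (P n)
  have hs1 : ∀ n, Proj (s n) := fun n => hG1 _ (hPb n)
  have hs2 : ∀ n, s n ≠ 0 := fun n => hG2 _ (hPb n)
  have hsum : ∀ n, P n = P (n + 1) + s n := fun n => hFG1 _ (hPb n)
  have hz1 : ∀ n, P (n + 1) * s n = 0 := fun n => hFG2 _ (hPb n)
  have hz2 : ∀ n, s n * P (n + 1) = 0 := fun n => hFG3 _ (hPb n)
  have hPP : ∀ n m, n ≤ m → P n * P m = P m := by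
    intro n m hnm
    induction m, hnm using Nat.le_induction with
    | base => exact (hPb n).1.2
    | succ m _ ih =>
      have h1 : P m * P (m + 1) = P (m + 1) := by
        rw [hsum m, add_mul, (hPb (m + 1)).1.2, hz2, add_zero]
      rw [← h1, ← mul_assoc, ih]
  have hPs' : ∀ n, P n * s n = s n := by
    intro n
    rw [hsum n, add_mul, hz1, zero_add, (hs1 n).2]
  have hss : ∀ n m, n < m → s n * s m = 0 := by
    intro n m hnm
    rw [← hPs' m, ← hPP (n + 1) m hnm, ← mul_assoc, ← mul_assoc, hz2, zero_mul, zero_mul]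
  have hss' : ∀ n m, n ≠ m → s n * s m = 0 := by
    intro n m hnm
    rcases lt_or_gt_of_ne hnm with h | h
    · exact hss n m h
    · have := congrArg star (hss m n h)
      rwa [star_mul, (hs1 n).1, (hs1 m).1, star_zero] at this
  have hPs0 : ∀ n, P 0 * s n = s n := by
    intro n
    rw [← hPs' n, ← mul_assoc, hPP 0 n (Nat.zero_le n)]
  have hsummable : Summable (fun n => ((1 / 2 : ℝ) ^ n) • s n) := by
    refine Summable.of_norm_bounded (g := fun n : ℕ => (1 / 2 : ℝ) ^ n) summable_geometric_two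
      fun n => ?_
    rw [norm_smul, Real.norm_of_nonneg (by positivity)]
    have : (0 : ℝ) ≤ (1 / 2) ^ n := by positivity
    nlinarith [norm_proj_le (hs1 n)]
  let w : A := ∑' n, ((1 / 2 : ℝ) ^ n) • s n
  have hws : star w = w := by
    have h1 := hsummable.hasSum.star
    have h2 : (fun n => star (((1 / 2 : ℝ) ^ n) • s n)) = fun n => ((1 / 2 : ℝ) ^ n) • s n := by
      funext n; rw [star_smul, (hs1 n).1, star_trivial]
    rw [h2] at h1
    exact h1.unique hsummable.hasSum
  have hwm : ∀ m, w * s m = ((1 / 2 : ℝ) ^ m) • s m := by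
    intro m
    simp only [w]
    rw [← hsummable.tsum_mul_right, tsum_eq_single m]
    · rw [smul_mul_assoc, (hs1 m).2]
    · intro n hn; rw [smul_mul_assoc, hss' n m hn, smul_zero]
  have hsa : IsSelfAdjoint (p + w) := by
    rw [isSelfAdjoint_iff, star_add, hp.1, hws]
  refine hA (p + w) hsa 1 one_ne_zero ?_
  rw [accPt_iff_frequently]
  have hlim : Tendsto (fun m : ℕ => 1 + (1 / 2 : ℝ) ^ m) atTop (𝓝 1) := by
    have := (tendsto_pow_atTop_nhds_zero_of_lt_one (r := (1 / 2 : ℝ)) (by norm_num)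
      (by norm_num)).const_add 1
    simpa using this
  refine hlim.frequently (Frequently.of_forall fun m => ⟨?_, ?_⟩)
  · have : (0 : ℝ) < (1 / 2) ^ m := by positivity
    linarith
  · refine mem_quasispectrum (hs2 m) ?_
    rw [add_mul, ← hP0, hPs0, hwm, add_smul, one_smul]

/-- corners between projections are finite-dimensional -/
theorem exists_finite_corner (hA : NoAcc A) {p q : A} (hp : Proj p) (hq : Proj q) :
    ∃ V : Submodule ℂ A, FiniteDimensional ℂ V ∧ ∀ x : A, p * x * q ∈ V := by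
  have base : ∀ e f : A, MinP e → MinP f →
      ∃ V : Submodule ℂ A, FiniteDimensional ℂ V ∧ ∀ x : A, e * x * f ∈ V := by
    intro e f he hf
    by_cases h0 : ∀ x, e * x * f = 0
    · exact ⟨⊥, inferInstance, fun x => by rw [h0]; exact zero_mem _⟩
    · push Not at h0
      obtain ⟨x0, hx0⟩ := h0
      set v := e * x0 * f with hv
      refine ⟨Submodule.span ℂ {v}, inferInstance, fun x => ?_⟩
      obtain ⟨c, hc⟩ := he.2 (x0 * f * star x0)
      have hvv : v * star v = c • e := by
        rw [← hc, hv, star_mul, star_mul, he.1.1, hf.1.1]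
        simp only [mul_assoc]
        rw [← mul_assoc f f, hf.1.2]
      have hc0 : c ≠ 0 := by
        rintro rfl
        rw [zero_smul] at hvv
        have := CStarRing.norm_self_mul_star (x := v)
        rw [hvv, norm_zero] at this
        exact hx0 (norm_eq_zero.1 (by nlinarith [norm_nonneg v]))
      obtain ⟨c', hc'⟩ := hf.2 (star x0 * e * x)
      have h1 : v * star v * (e * x * f) = c' • v := by
        have h2 : star v * (e * x * f) = c' • f := by
          rw [← hc', hv, star_mul, star_mul, he.1.1, hf.1.1]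
          simp only [mul_assoc]
          rw [← mul_assoc e e, he.1.2]
        rw [mul_assoc, h2, mul_smul_comm]
        congr 1
        rw [hv, mul_assoc, hf.1.2]
      have h3 : c • (e * x * f) = c' • v := by
        rw [← h1, hvv, smul_mul_assoc]
        congr 1
        simp only [← mul_assoc, he.1.2]
      have h4 : e * x * f = (c⁻¹ * c') • v := by
        rw [mul_smul, ← h3, smul_smul, inv_mul_cancel₀ hc0, one_smul]
      rw [h4]
      exact Submodule.smul_mem _ _ (Submodule.mem_span_singleton_self v)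
  have step : ∀ e : A, MinP e → ∀ q ∈ AddSubmonoid.closure {e : A | MinP e},
      ∃ V : Submodule ℂ A, FiniteDimensional ℂ V ∧ ∀ x : A, e * x * q ∈ V := by
    intro e he q hq
    induction hq using AddSubmonoid.closure_induction with
    | mem f hf => exact base e f he hf
    | zero => exact ⟨⊥, inferInstance, fun x => by rw [mul_zero]; exact zero_mem _⟩
    | add f g _ _ ihf ihg =>
      obtain ⟨V, hV, h1⟩ := ihf
      obtain ⟨W, hW, h2⟩ := ihg
      refine ⟨V ⊔ W, inferInstance, fun x => ?_⟩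
      rw [mul_add]
      exact Submodule.add_mem_sup (h1 x) (h2 x)
  have hp' := mem_closure_minP hA hp
  have hq' := mem_closure_minP hA hq
  clear hp
  induction hp' using AddSubmonoid.closure_induction with
  | mem e he => exact step e he q hq'
  | zero => exact ⟨⊥, inferInstance, fun x => by rw [zero_mul, zero_mul]; exact zero_mem _⟩
  | add f g _ _ ihf ihg =>
    obtain ⟨V, hV, h1⟩ := ihf
    obtain ⟨W, hW, h2⟩ := ihg
    refine ⟨V ⊔ W, inferInstance, fun x => ?_⟩
    rw [add_mul, add_mul]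
    exact Submodule.add_mem_sup (h1 x) (h2 x)

end

end Pool.Agent.H275CG
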