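import Mathlib
import Pool.Agent.H275.CG.Defs
import Pool.Agent.H275.CG.Unital
import Pool.Agent.H275.CG.Sep
import Pool.Agent.H275.CG.Min
import Pool.Agent.Helper917.ToepKernel

set_option autoImplicit false

open scoped Matrix Topology
open Filter

namespace Pool.Agent.H275CG

open Pool.Agent.Helper917 (IsPos norm_sum_star_mul_le)

section

variable {A : Type*} [NonUnitalCStarAlgebra A]

lemma isClosed_nonneg' {B : Type*} [NonUnitalCStarAlgebra B] [PartialOrder B]
    [StarOrderedRing B] : IsClosed {b : B | 0 ≤ b} := CStarAlgebra.isClosed_nonneg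

/-- positive matrices form a closed set (entrywise convergence) -/
lemma isPos_of_tendsto {ι : Type*} [Fintype ι] {M : ℕ → Matrix ι ι A} {L : Matrix ι ι A}
    (hM : ∀ n, IsPos (M n)) (h : ∀ i j, Tendsto (fun n => M n i j) atTop (𝓝 (L i j))) :
    IsPos L := by
  let _ := CStarAlgebra.spectralOrder A
  have _ := CStarAlgebra.spectralOrderedRing A
  have h1 : Tendsto (fun n => (CStarMatrix.ofMatrix (M n) : CStarMatrix ι ι A)) atTop
      (𝓝 (CStarMatrix.ofMatrix L)) := by
    have h2 : Tendsto M atTop (𝓝 L) :=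
      tendsto_pi_nhds.2 fun i => tendsto_pi_nhds.2 fun j => h i j
    exact h2
  have h3 : (0 : CStarMatrix ι ι A) ≤ CStarMatrix.ofMatrix L := by
    refine (isClosed_nonneg' (B := CStarMatrix ι ι A)).mem_of_tendsto h1
      (Eventually.of_forall fun n => ?_)
    obtain ⟨C, hC⟩ := hM n
    have : (CStarMatrix.ofMatrix (M n) : CStarMatrix ι ι A)
        = star (CStarMatrix.ofMatrix C) * CStarMatrix.ofMatrix C := by rw [hC]; rfl
    show 0 ≤ CStarMatrix.ofMatrix (M n)
    rw [this]
    exact star_mul_self_nonneg _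
  obtain ⟨C, hC⟩ := exists_star_mul_self h3
  exact ⟨CStarMatrix.ofMatrix.symm C, hC⟩

/-- the cut-off functions -/
noncomputable def kap (ε t : ℝ) : ℝ := Real.sqrt |t| / (|t| + ε)

lemma kap_cont {ε : ℝ} (hε : 0 < ε) : Continuous (kap ε) := by
  unfold kap
  refine Continuous.div (by fun_prop) (by fun_prop) fun t => ?_
  have := abs_nonneg t
  positivity

lemma kap_zero {ε : ℝ} : kap ε 0 = 0 := by simp [kap]

lemma kap_sq_mul {ε : ℝ} (hε : 0 < ε) (t : ℝ) : 0 ≤ kap ε t * kap ε t * |t| ∧
    kap ε t * kap ε t * |t| ≤ 1 := by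
  have h0 := abs_nonneg t
  have h1 : kap ε t * kap ε t * |t| = (|t| / (|t| + ε)) ^ 2 := by
    have h2 := Real.mul_self_sqrt h0
    unfold kap
    rw [div_mul_div_comm, h2, div_pow]
    ring
  have h3 : 0 ≤ |t| / (|t| + ε) := by positivity
  have h4 : |t| / (|t| + ε) ≤ 1 := by
    rw [div_le_one (by positivity)]; linarith
  rw [h1]
  exact ⟨by positivity, by nlinarith⟩

lemma kap_mul_sqrt {ε : ℝ} (t : ℝ) : kap ε t * Real.sqrt |t| = |t| / (|t| + ε) := by
  unfold kap
  rw [div_mul_eq_mul_div, Real.mul_self_sqrt (abs_nonneg t)]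

lemma aux_bound {ε : ℝ} (hε : 0 < ε) (t : ℝ) :
    |t| * (1 - kap ε t * Real.sqrt |t|) ^ 2 ≤ ε := by
  have h0 := abs_nonneg t
  rw [kap_mul_sqrt]
  have h1 : 1 - |t| / (|t| + ε) = ε / (|t| + ε) := by
    field_simp
    ring
  rw [h1, div_pow, ← mul_div_assoc, div_le_iff₀ (by positivity)]
  nlinarith [mul_nonneg h0 hε.le, sq_nonneg (|t|)]

variable {c : A}

lemma cfcₙ_abs_eq (hc : ∀ t ∈ quasispectrum ℝ c, 0 ≤ t) (hsa : IsSelfAdjoint c) :
    cfcₙ (fun t : ℝ => |t|) c = c := by
  conv_rhs => rw [← cfcₙ_id' ℝ c]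
  exact cfcₙ_congr fun t ht => abs_of_nonneg (hc t ht)

/-- the Schur complement estimate -/
lemma schur (hsp : ∀ t ∈ quasispectrum ℝ c, 0 ≤ t) (hsa : IsSelfAdjoint c) {ε : ℝ} (hε : 0 < ε)
    (q1 q2 : Fin 2 → A) (a b : A) (ha : a = ∑ i, star (q1 i) * q1 i)
    (hb : b = ∑ i, star (q1 i) * q2 i) (hc : c = ∑ i, star (q2 i) * q2 i) :
    ∃ t : A, a = b * (cfcₙ (kap ε) c * cfcₙ (kap ε) c) * star b + star t * t := by
  let _ := CStarAlgebra.spectralOrder A
  have _ := CStarAlgebra.spectralOrderedRing A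
  set k := cfcₙ (kap ε) c with hk
  have hkc := kap_cont hε
  have hks : star k = k := cfcₙ_predicate (R := ℝ) (kap ε) c
  have hX : 0 ≤ k * k - k * k * c * (k * k) := by
    have e1 : k * k - k * k * c * (k * k)
        = cfcₙ (fun t => kap ε t * kap ε t - kap ε t * kap ε t * |t| * (kap ε t * kap ε t)) c := by
      have f1 : cfcₙ (fun t => kap ε t * kap ε t) c = k * k := by
        rw [cfcₙ_mul (kap ε) (kap ε) c hkc.continuousOn kap_zero hkc.continuousOn kap_zero]
      have f2 : cfcₙ (fun t => kap ε t * kap ε t * |t|) c = k * k * c := by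
        rw [cfcₙ_mul (fun t => kap ε t * kap ε t) (fun t => |t|) c
          (hkc.mul hkc).continuousOn (by simp [kap_zero]) continuous_abs.continuousOn (by simp),
          f1, cfcₙ_abs_eq hsp hsa]
      rw [cfcₙ_sub (fun t => kap ε t * kap ε t)
        (fun t => kap ε t * kap ε t * |t| * (kap ε t * kap ε t)) c (hkc.mul hkc).continuousOn
        (by simp [kap_zero]) (by fun_prop) (by simp [kap_zero]), f1,
        cfcₙ_mul (fun t => kap ε t * kap ε t * |t|) (fun t => kap ε t * kap ε t) c
          (by fun_prop) (by simp [kap_zero]) (hkc.mul hkc).continuousOn (by simp [kap_zero]),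
        f1, f2]
    rw [e1]
    refine cfcₙ_nonneg fun t _ => ?_
    have h1 := kap_sq_mul hε t
    have h2 : 0 ≤ kap ε t * kap ε t := mul_self_nonneg _
    nlinarith
  have hv : 0 ≤ ∑ i, star (q1 i - q2 i * (k * k * star b)) * (q1 i - q2 i * (k * k * star b)) :=
    Finset.sum_nonneg fun _ _ => star_mul_self_nonneg _
  have hbX : 0 ≤ b * (k * k - k * k * c * (k * k)) * star b := by
    have := star_left_conjugate_nonneg hX (star b)
    rwa [star_star] at this
  have hsb : star b = ∑ i, star (q2 i) * q1 i := by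
    rw [hb, star_sum]; refine Finset.sum_congr rfl fun i _ => ?_
    rw [star_mul, star_star]
  have e2 : a - b * (k * k) * star b
      = ∑ i, star (q1 i - q2 i * (k * k * star b)) * (q1 i - q2 i * (k * k * star b))
        + b * (k * k - k * k * c * (k * k)) * star b := by
    have e3 : ∀ i, star (q1 i - q2 i * (k * k * star b)) * (q1 i - q2 i * (k * k * star b))
        = star (q1 i) * q1 i - (star (q1 i) * q2 i) * (k * k * star b)
          - (b * (k * k)) * (star (q2 i) * q1 i)
          + (b * (k * k)) * (star (q2 i) * q2 i) * (k * k * star b) := by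
      intro i
      rw [star_sub, star_mul, star_mul, star_mul, star_star, hks]
      noncomm_ring
    simp only [e3, Finset.sum_add_distrib, Finset.sum_sub_distrib, ← Finset.mul_sum,
      ← Finset.sum_mul]
    rw [← ha, ← hb, ← hsb, ← hc]
    noncomm_ring
  have h0 : 0 ≤ a - b * (k * k) * star b := by
    rw [e2]; exact add_nonneg hv hbX
  obtain ⟨t, ht⟩ := exists_star_mul_self h0
  exact ⟨t, by rw [← ht]; abel⟩

/-- convergence of the cut-off rows -/
lemma conv_est (hsp : ∀ t ∈ quasispectrum ℝ c, 0 ≤ t) (hsa : IsSelfAdjoint c) {ε : ℝ}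
    (hε : 0 < ε) (q1 q2 : Fin 2 → A) (a b : A) (ha : a = ∑ i, star (q1 i) * q1 i)
    (hb : b = ∑ i, star (q1 i) * q2 i) (hc : c = ∑ i, star (q2 i) * q2 i) :
    ‖b - b * (cfcₙ (kap ε) c * cfcₙ (fun t : ℝ => Real.sqrt |t|) c)‖ ^ 2 ≤ ‖a‖ * ε := by
  have hkc := kap_cont hε
  set f := cfcₙ (kap ε) c * cfcₙ (fun t : ℝ => Real.sqrt |t|) c with hf
  have hf1 : f = cfcₙ (fun t => kap ε t * Real.sqrt |t|) c := by
    rw [hf, cfcₙ_mul (kap ε) (fun t => Real.sqrt |t|) c hkc.continuousOn kap_zero
      (by fun_prop) (by simp)]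
  have hfs : star f = f := by rw [hf1]; exact cfcₙ_predicate (R := ℝ) _ c
  have e0 : b - b * f = ∑ i, star (q1 i) * (q2 i - q2 i * f) := by
    simp only [mul_sub, Finset.sum_sub_distrib, ← mul_assoc, ← Finset.sum_mul]
    rw [← hb]
  have e1 : ∑ i, star (q2 i - q2 i * f) * (q2 i - q2 i * f)
      = cfcₙ (fun t => |t| * (1 - kap ε t * Real.sqrt |t|) ^ 2) c := by
    have e3 : ∀ i, star (q2 i - q2 i * f) * (q2 i - q2 i * f)
        = star (q2 i) * q2 i - star (q2 i) * q2 i * f - f * (star (q2 i) * q2 i)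
          + f * (star (q2 i) * q2 i) * f := by
      intro i
      rw [star_sub, star_mul, hfs]
      noncomm_ring
    simp only [e3, Finset.sum_add_distrib, Finset.sum_sub_distrib, ← Finset.mul_sum,
      ← Finset.sum_mul]
    rw [← hc, hf1]
    have g1 : Continuous (fun t => kap ε t * Real.sqrt |t|) := by fun_prop
    have g2 : kap ε 0 * Real.sqrt |0| = 0 := by simp
    have e4 : cfcₙ (fun t => kap ε t * Real.sqrt |t|) c * c
        = cfcₙ (fun t => kap ε t * Real.sqrt |t| * |t|) c := by
      rw [cfcₙ_mul (fun t => kap ε t * Real.sqrt |t|) (fun t => |t|) c g1.continuousOn g2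
        continuous_abs.continuousOn (by simp), cfcₙ_abs_eq hsp hsa]
    have e5 : c * cfcₙ (fun t => kap ε t * Real.sqrt |t|) c
        = cfcₙ (fun t => |t| * (kap ε t * Real.sqrt |t|)) c := by
      rw [cfcₙ_mul (fun t => |t|) (fun t => kap ε t * Real.sqrt |t|) c
        continuous_abs.continuousOn (by simp) g1.continuousOn g2, cfcₙ_abs_eq hsp hsa]
    have e6 : cfcₙ (fun t => kap ε t * Real.sqrt |t|) c * c
        * cfcₙ (fun t => kap ε t * Real.sqrt |t|) c
        = cfcₙ (fun t => kap ε t * Real.sqrt |t| * |t| * (kap ε t * Real.sqrt |t|)) c := by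
      rw [cfcₙ_mul (fun t => kap ε t * Real.sqrt |t| * |t|) (fun t => kap ε t * Real.sqrt |t|) c
        (by fun_prop) (by simp) g1.continuousOn g2, e4]
    rw [e6, e4, e5]
    conv_lhs => rw [show c - cfcₙ (fun t => |t| * (kap ε t * Real.sqrt |t|)) c
      - cfcₙ (fun t => kap ε t * Real.sqrt |t| * |t|) c
      = cfcₙ (fun t => |t|) c - cfcₙ (fun t => |t| * (kap ε t * Real.sqrt |t|)) c
      - cfcₙ (fun t => kap ε t * Real.sqrt |t| * |t|) c by rw [cfcₙ_abs_eq hsp hsa]]
    rw [← cfcₙ_sub (fun t => |t|) (fun t => |t| * (kap ε t * Real.sqrt |t|)) c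
        continuous_abs.continuousOn (by simp) (by fun_prop) (by simp),
      ← cfcₙ_sub (fun t => |t| - |t| * (kap ε t * Real.sqrt |t|))
        (fun t => kap ε t * Real.sqrt |t| * |t|) c (by fun_prop) (by simp) (by fun_prop) (by simp),
      ← cfcₙ_add (fun t => |t| - |t| * (kap ε t * Real.sqrt |t|) - kap ε t * Real.sqrt |t| * |t|)
        (fun t => kap ε t * Real.sqrt |t| * |t| * (kap ε t * Real.sqrt |t|)) c (by fun_prop)
        (by simp) (by fun_prop) (by simp)]
    congr 1
    funext t
    ring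
  have e2 := norm_sum_star_mul_le q1 (fun i => q2 i - q2 i * f)
  rw [← e0, ← ha, e1] at e2
  refine e2.trans (mul_le_mul_of_nonneg_left ?_ (norm_nonneg _))
  refine norm_cfcₙ_le fun t _ => ?_
  rw [Real.norm_of_nonneg (by positivity)]
  exact aux_bound hε t

/-- cutting a Gram entry by projections -/
lemma cut_est {κ : Type*} [Fintype κ] (u v : κ → A) (a e y p : A) (hp : star p = p)
    (ha : a = ∑ k, star (u k) * u k) (he : e = ∑ k, star (v k) * v k)
    (hy : y = ∑ k, star (u k) * v k) :
    ‖y - p * y‖ ^ 2 ≤ ‖a - p * a - a * p + p * a * p‖ * ‖e‖ := by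
  have h := norm_sum_star_mul_le (fun k => u k - u k * p) v
  have e1 : ∑ k, star (u k - u k * p) * v k = y - p * y := by
    rw [hy, Finset.mul_sum, ← Finset.sum_sub_distrib]
    refine Finset.sum_congr rfl fun k _ => ?_
    rw [star_sub, star_mul, hp]; noncomm_ring
  have e2 : ∑ k, star (u k - u k * p) * (u k - u k * p) = a - p * a - a * p + p * a * p := by
    rw [ha, Finset.mul_sum, Finset.sum_mul, Finset.sum_mul, ← Finset.sum_sub_distrib,
      ← Finset.sum_sub_distrib, ← Finset.sum_add_distrib]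
    refine Finset.sum_congr rfl fun k _ => ?_
    rw [star_sub, star_mul, hp]; noncomm_ring
  rw [e1, e2, ← he] at h
  exact h

/-- a subset of a normed space approximable by compact sets is totally bounded -/
lemma totallyBounded_of_approx {E : Type*} [PseudoMetricSpace E] {s : Set E}
    (h : ∀ η > 0, ∃ K : Set E, IsCompact K ∧ ∀ x ∈ s, ∃ z ∈ K, dist x z < η) :
    TotallyBounded s := by
  rw [Metric.totallyBounded_iff]
  intro ε hε
  obtain ⟨K, hK, hs⟩ := h (ε / 2) (by linarith)
  obtain ⟨t, ht, htK⟩ := Metric.totallyBounded_iff.1 hK.totallyBounded (ε / 2) (by linarith)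
  refine ⟨t, ht, fun x hx => ?_⟩
  obtain ⟨z, hz, hxz⟩ := hs x hx
  obtain ⟨y, hy, hzy⟩ := Set.mem_iUnion₂.1 (htK hz)
  refine Set.mem_iUnion₂.2 ⟨y, hy, ?_⟩
  rw [Metric.mem_ball] at hzy ⊢
  linarith [dist_triangle x z y]

theorem p3_of_noAcc (hA : NoAcc A) : P3 A := by
  intro a b c d e h1 h2
  let _ := CStarAlgebra.spectralOrder A
  have _ := CStarAlgebra.spectralOrderedRing A
  obtain ⟨R, hR⟩ := h1
  obtain ⟨S, hS⟩ := h2
  have r00 : a = ∑ i, star (R i 0) * R i 0 := by
    simpa [Matrix.mul_apply] using congrFun (congrFun hR 0) 0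
  have r01 : b = ∑ i, star (R i 0) * R i 1 := by
    simpa [Matrix.mul_apply] using congrFun (congrFun hR 0) 1
  have r11 : c = ∑ i, star (R i 1) * R i 1 := by
    simpa [Matrix.mul_apply] using congrFun (congrFun hR 1) 1
  have s00 : c = ∑ i, star (S i 0) * S i 0 := by
    simpa [Matrix.mul_apply] using congrFun (congrFun hS 0) 0
  have s10 : star d = ∑ i, star (S i 1) * S i 0 := by
    simpa [Matrix.mul_apply] using congrFun (congrFun hS 1) 0
  have s11 : e = ∑ i, star (S i 1) * S i 1 := by
    simpa [Matrix.mul_apply] using congrFun (congrFun hS 1) 1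
  have hc : 0 ≤ c := by
    rw [r11]; exact Finset.sum_nonneg fun _ _ => star_mul_self_nonneg _
  have ha : 0 ≤ a := by
    rw [r00]; exact Finset.sum_nonneg fun _ _ => star_mul_self_nonneg _
  have he : 0 ≤ e := by
    rw [s11]; exact Finset.sum_nonneg fun _ _ => star_mul_self_nonneg _
  have hsa : IsSelfAdjoint c := IsSelfAdjoint.of_nonneg hc
  have hsp : ∀ t ∈ quasispectrum ℝ c, 0 ≤ t := quasispectrum_nonneg_of_nonneg c hc
  let r : A := cfcₙ (fun t : ℝ => Real.sqrt |t|) c
  have hrs : star r = r := cfcₙ_predicate (R := ℝ) _ c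
  have hrr : r * r = c := by
    simp only [r]
    rw [← cfcₙ_mul (fun t => Real.sqrt |t|) (fun t => Real.sqrt |t|) c (by fun_prop) (by simp)
      (by fun_prop) (by simp)]
    conv_rhs => rw [← cfcₙ_abs_eq hsp hsa]
    congr 1
    funext t
    exact Real.mul_self_sqrt (abs_nonneg t)
  let ε : ℕ → ℝ := fun n => 1 / ((n : ℝ) + 1)
  have hε : ∀ n, 0 < ε n := fun n => by simp only [ε]; positivity
  let k : ℕ → A := fun n => cfcₙ (kap (ε n)) c
  have hks : ∀ n, star (k n) = k n := fun n => cfcₙ_predicate (R := ℝ) _ c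
  have hkr : ∀ n, r * k n = k n * r := by
    intro n
    simp only [r, k]
    rw [← cfcₙ_mul _ _ c (by fun_prop) (by simp) (kap_cont (hε n)).continuousOn kap_zero,
      ← cfcₙ_mul _ _ c (kap_cont (hε n)).continuousOn kap_zero (by fun_prop) (by simp)]
    congr 1
    funext t
    exact mul_comm _ _
  have hpos : ∀ n, IsPos !![a, b * (k n * r), b * (k n * (k n * d)); star (b * (k n * r)), c,
      r * k n * d; star (b * (k n * (k n * d))), star (r * k n * d), e] := by
    intro n
    obtain ⟨t, ht⟩ := schur hsp hsa (hε n) (fun i => R i 0) (fun i => R i 1) a b r00 r01 r11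
    obtain ⟨t', ht'⟩ := schur hsp hsa (hε n) (fun i => S i 1) (fun i => S i 0) e (star d)
      s11 s10 s00
    have := isPos_gram (!![k n * star b, r, k n * d; t, 0, 0; 0, 0, t'] :
      Matrix (Fin 3) (Fin 3) A)
    convert this using 1
    ext i j
    fin_cases i <;> fin_cases j <;>
      simp [Matrix.mul_apply, Fin.sum_univ_three, hrs, hrr, hks, star_mul, mul_assoc]
    · simpa [mul_assoc] using ht
    · simpa [mul_assoc] using ht'
  -- convergence of the data
  have hb : Tendsto (fun n => b * (k n * r)) atTop (𝓝 b) := by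
    rw [tendsto_iff_norm_sub_tendsto_zero]
    have hz : Tendsto (fun n => Real.sqrt (‖a‖ * ε n)) atTop (𝓝 0) := by
      have : Tendsto (fun n => ‖a‖ * ε n) atTop (𝓝 0) := by
        have := (tendsto_one_div_add_atTop_nhds_zero_nat (𝕜 := ℝ)).const_mul ‖a‖
        simpa [ε] using this
      have h2 := (Real.continuous_sqrt.tendsto 0).comp this
      rw [Real.sqrt_zero] at h2
      exact h2
    refine squeeze_zero (fun n => norm_nonneg _) (fun n => ?_) hz
    rw [norm_sub_rev]
    exact Real.le_sqrt_of_sq_le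
      (conv_est hsp hsa (hε n) (fun i => R i 0) (fun i => R i 1) a b r00 r01 r11)
  have hd' : Tendsto (fun n => star d * (k n * r)) atTop (𝓝 (star d)) := by
    rw [tendsto_iff_norm_sub_tendsto_zero]
    have hz : Tendsto (fun n => Real.sqrt (‖e‖ * ε n)) atTop (𝓝 0) := by
      have : Tendsto (fun n => ‖e‖ * ε n) atTop (𝓝 0) := by
        have := (tendsto_one_div_add_atTop_nhds_zero_nat (𝕜 := ℝ)).const_mul ‖e‖
        simpa [ε] using this
      have h2 := (Real.continuous_sqrt.tendsto 0).comp this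
      rw [Real.sqrt_zero] at h2
      exact h2
    refine squeeze_zero (fun n => norm_nonneg _) (fun n => ?_) hz
    rw [norm_sub_rev]
    exact Real.le_sqrt_of_sq_le
      (conv_est hsp hsa (hε n) (fun i => S i 1) (fun i => S i 0) e (star d) s11 s10 s00)
  have hd : Tendsto (fun n => r * k n * d) atTop (𝓝 d) := by
    have := hd'.star
    rw [star_star] at this
    refine this.congr fun n => ?_
    rw [star_mul, star_mul, star_star, hrs, hks]
  -- compactness
  let y : ℕ → A := fun n => b * (k n * (k n * d))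
  have gram : ∀ n, ∃ B : Matrix (Fin 3) (Fin 3) A, a = ∑ i, star (B i 0) * B i 0 ∧
      e = ∑ i, star (B i 2) * B i 2 ∧ y n = ∑ i, star (B i 0) * B i 2 ∧
      star (y n) = ∑ i, star (B i 2) * B i 0 := by
    intro n
    obtain ⟨B, hB⟩ := hpos n
    refine ⟨B, ?_, ?_, ?_, ?_⟩
    · simpa [Matrix.mul_apply] using congrFun (congrFun hB 0) 0
    · simpa [Matrix.mul_apply] using congrFun (congrFun hB 2) 2
    · simpa [Matrix.mul_apply, y] using congrFun (congrFun hB 0) 2
    · simpa [Matrix.mul_apply, y] using congrFun (congrFun hB 2) 0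
  have hybd : ∀ n, ‖y n‖ ^ 2 ≤ ‖a‖ * ‖e‖ := by
    intro n
    obtain ⟨B, h1, h2, h3, -⟩ := gram n
    have := norm_sum_star_mul_le (fun i => B i 0) (fun i => B i 2)
    rwa [← h1, ← h2, ← h3] at this
  have htb : TotallyBounded (Set.range y) := by
    refine totallyBounded_of_approx fun η hη => ?_
    set C := ‖a‖ + ‖e‖ + 1 with hC
    have hC1 : 1 ≤ C := by have := norm_nonneg a; have := norm_nonneg e; linarith
    let δ := (η / 3) ^ 2 / C
    have hδ : 0 < δ := by positivity
    obtain ⟨p, hp, hpa⟩ := cut_proj hA (IsSelfAdjoint.of_nonneg ha) hδ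
    obtain ⟨q, hq, hqe⟩ := cut_proj hA (IsSelfAdjoint.of_nonneg he) hδ
    obtain ⟨V, hV, hpq⟩ := exists_finite_corner hA hp hq
    refine ⟨Subtype.val '' (Metric.closedBall (0 : V) C), ?_, ?_⟩
    · have : ProperSpace V := FiniteDimensional.proper ℂ V
      exact (isCompact_closedBall (0 : V) C).image continuous_subtype_val
    · rintro _ ⟨n, rfl⟩
      obtain ⟨B, h1, h2, h3, h4⟩ := gram n
      have b1 := cut_est (fun i => B i 0) (fun i => B i 2) a e (y n) p hp.1 h1 h2 h3
      have b2 := cut_est (fun i => B i 2) (fun i => B i 0) e a (star (y n)) q hq.1 h2 h1 h4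
      have hδC : δ * C = (η / 3) ^ 2 := by
        simp only [δ]; field_simp
      have c1 : ‖y n - p * y n‖ ≤ η / 3 := by
        refine abs_le_of_sq_le_sq' ?_ (by positivity) |>.2
        refine b1.trans ?_
        rw [← hδC]
        have := norm_nonneg a
        exact mul_le_mul hpa (by linarith) (norm_nonneg _) hδ.le
      have c2 : ‖y n - y n * q‖ ≤ η / 3 := by
        have e0 : y n - y n * q = star (star (y n) - q * star (y n)) := by
          rw [star_sub, star_mul q (star (y n)), star_star, hq.1]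
        rw [e0, norm_star]
        refine abs_le_of_sq_le_sq' ?_ (by positivity) |>.2
        refine b2.trans ?_
        rw [← hδC]
        have := norm_nonneg e
        exact mul_le_mul hqe (by linarith) (norm_nonneg _) hδ.le
      have hp1 := norm_proj_le hp
      have hq1 := norm_proj_le hq
      have c3 : ‖y n - p * y n * q‖ ≤ η / 3 + η / 3 := by
        have e0 : y n - p * y n * q = (y n - p * y n) + p * (y n - y n * q) := by
          noncomm_ring
        rw [e0]
        refine (norm_add_le _ _).trans (add_le_add c1 ?_)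
        refine (norm_mul_le _ _).trans ?_
        calc ‖p‖ * ‖y n - y n * q‖ ≤ 1 * (η / 3) := by gcongr
          _ = η / 3 := one_mul _
      refine ⟨p * y n * q, ⟨⟨p * y n * q, hpq _⟩, ?_, rfl⟩, ?_⟩
      · rw [mem_closedBall_zero_iff]
        show ‖p * y n * q‖ ≤ C
        have hy1 : ‖y n‖ ≤ C := by
          have := hybd n
          have ha' := norm_nonneg a
          have he' := norm_nonneg e
          refine abs_le_of_sq_le_sq' (this.trans ?_) (by positivity) |>.2
          nlinarith
        calc ‖p * y n * q‖ ≤ ‖p‖ * ‖y n‖ * ‖q‖ :=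
              (norm_mul_le _ _).trans (by gcongr; exact norm_mul_le _ _)
          _ ≤ 1 * C * 1 := by gcongr
          _ = C := by ring
      · rw [dist_eq_norm]
        linarith
  have hcpt : IsCompact (closure (Set.range y)) :=
    htb.closure.isCompact_of_isClosed isClosed_closure
  obtain ⟨z, -, φ, hφ, hlim⟩ := hcpt.tendsto_subseq (x := y)
    (fun n => subset_closure ⟨n, rfl⟩)
  refine ⟨z, isPos_of_tendsto (fun n => hpos (φ n)) ?_⟩
  have hφt := hφ.tendsto_atTop
  have l1 := hb.comp hφt
  have l2 := hd.comp hφt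
  intro i j
  fin_cases i <;> fin_cases j
  · exact tendsto_const_nhds
  · exact l1
  · exact hlim
  · exact l1.star
  · exact tendsto_const_nhds
  · exact l2
  · exact hlim.star
  · exact l2.star
  · exact tendsto_const_nhds

end

end Pool.Agent.H275CG
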