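import Mathlib
import Pool.Agent.H275.CG.Defs
import Pool.Agent.H275.CG.Unital
import Pool.Agent.H275.CG.Sep
import Pool.Agent.H275.CG.Min
import Pool.Agent.H275.CG.Dual

set_option autoImplicit false

open scoped Matrix Topology
open Filter

namespace Pool.Agent.H275CG

section

variable {A : Type*} [CStarAlgebra A]

lemma finite_quasispectrum [FiniteDimensional ℂ A] (h : A) : (quasispectrum ℝ h).Finite := by
  rw [quasispectrum_eq_spectrum_union_zero]
  refine Set.Finite.union ?_ (Set.finite_singleton 0)
  rcases subsingleton_or_nontrivial A with hs | hn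
  · rw [spectrum.of_subsingleton]; exact Set.finite_empty
  · have : FiniteDimensional ℝ A := FiniteDimensional.complexToReal A
    have hint : IsIntegral ℝ h := Algebra.IsIntegral.isIntegral h
    refine ((minpoly ℝ h).rootSet_finite ℝ).subset fun μ hμ => ?_
    have h1 := spectrum.subset_polynomial_aeval h (minpoly ℝ h) ⟨μ, hμ, rfl⟩
    rw [minpoly.aeval, spectrum.zero_eq, Set.mem_singleton_iff] at h1
    rw [Polynomial.mem_rootSet]
    refine ⟨minpoly.ne_zero hint, ?_⟩
    rw [Polynomial.aeval_def, Polynomial.eval₂_eq_eval_map, Algebra.algebraMap_self,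
      Polynomial.map_id]
    exact h1

lemma noAcc_of_finiteDimensional [FiniteDimensional ℂ A] : NoAcc A := by
  intro h _ μ hμ hacc
  obtain ⟨t, hS, hpos, -, hlt⟩ := exists_seq hμ hacc
  have hinj : Function.Injective t := by
    intro n m hnm
    by_contra hne
    rcases lt_or_gt_of_ne hne with h1 | h1
    · have := hlt n m h1
      rw [hnm] at this
      linarith [hpos m]
    · have := hlt m n h1
      rw [hnm] at this
      linarith [hpos m]
  exact (Set.infinite_range_of_injective hinj)
    ((finite_quasispectrum h).subset (Set.range_subset_iff.2 hS))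

theorem p3_iff_finiteDimensional [TopologicalSpace.SeparableSpace A] :
    P3 A ↔ FiniteDimensional ℂ A := by
  constructor
  · intro h
    have hA := noAcc_of_p3 h
    have h1 : Proj (1 : A) := ⟨star_one A, one_mul 1⟩
    obtain ⟨V, hV, hx⟩ := exists_finite_corner hA h1 h1
    have htop : V = ⊤ := by
      rw [eq_top_iff]
      intro x _
      have := hx x
      rwa [one_mul, mul_one] at this
    subst htop
    exact LinearEquiv.finiteDimensional (Submodule.topEquiv (R := ℂ) (M := A))
  · intro h
    exact p3_of_noAcc noAcc_of_finiteDimensional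

/-- Every column `(x, s)` of height two has a weak polar decomposition `(x, s) = (u, v) c`, where
`c = (x* x + s* s)^{1/2}` and `(u, v)` is a contractive column over `A`. -/
def ColumnPolar (A : Type*) [CStarAlgebra A] : Prop :=
  ∀ x s : A, ∃ c w u v t : A, c = star w * w ∧ c * c = star x * x + star s * s ∧
    x = u * c ∧ s = v * c ∧ star u * u + star v * v + star t * t = 1

lemma column (h : Douglas A) (q12 q22 r : A) (hr : star r = r)
    (hrr : star q12 * q12 + star q22 * q22 = r * r) :
    ∃ z1 z2 t : A, q12 = z1 * r ∧ q22 = z2 * r ∧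
      star z1 * z1 + star z2 * z2 + star t * t = 1 := by
  let _ := CStarAlgebra.spectralOrder A
  have _ := CStarAlgebra.spectralOrderedRing A
  obtain ⟨z1, hz1, e1⟩ := h q12 r q22 (by rw [hr]; exact hrr)
  have hn : ‖star z1 * z1‖ ≤ 1 := by
    rw [CStarRing.norm_star_mul_self]; nlinarith [norm_nonneg z1]
  have h01 : 0 ≤ 1 - star z1 * z1 := by
    rw [sub_nonneg]
    exact (CStarAlgebra.norm_le_one_iff_of_nonneg _ (star_mul_self_nonneg z1)).1 hn
  let w := CFC.sqrt (1 - star z1 * z1)
  have hw0 : 0 ≤ w := CFC.sqrt_nonneg _
  have hws : star w = w := (IsSelfAdjoint.of_nonneg hw0)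
  have hww : w * w = 1 - star z1 * z1 := CFC.sqrt_mul_sqrt_self _ h01
  have e2' : star q22 * q22 = star (w * r) * (w * r) := by
    rw [star_mul, hws, hr]
    calc star q22 * q22 = r * r - star q12 * q12 := by rw [← hrr]; abel
      _ = r * (w * w) * r := by
        rw [hww, e1, star_mul, hr]; noncomm_ring
      _ = r * w * (w * r) := by noncomm_ring
  obtain ⟨z, hz, e2⟩ := h q22 (w * r) 0 (by rw [star_zero, mul_zero, add_zero]; exact e2')
  let z2 := z * w
  have e3 : q22 = z2 * r := by rw [e2]; simp only [z2]; noncomm_ring
  have hzz : star z * z ≤ 1 := by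
    refine (CStarAlgebra.norm_le_one_iff_of_nonneg _ (star_mul_self_nonneg z)).1 ?_
    rw [CStarRing.norm_star_mul_self]; nlinarith [norm_nonneg z]
  have hsum : 0 ≤ 1 - star z1 * z1 - star z2 * z2 := by
    have := star_left_conjugate_nonneg (sub_nonneg.2 hzz) w
    have e : star w * (1 - star z * z) * w = 1 - star z1 * z1 - star z2 * z2 := by
      simp only [z2, star_mul]
      rw [← hww]
      rw [hws]; noncomm_ring
    rwa [e] at this
  obtain ⟨t, ht⟩ := exists_star_mul_self hsum
  exact ⟨z1, z2, t, e1, e3, by rw [← ht]; abel⟩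

theorem douglas_iff_columnPolar : Douglas A ↔ ColumnPolar A := by
  let _ := CStarAlgebra.spectralOrder A
  have _ := CStarAlgebra.spectralOrderedRing A
  constructor
  · intro h x s
    have h0 : 0 ≤ star x * x + star s * s :=
      add_nonneg (star_mul_self_nonneg _) (star_mul_self_nonneg _)
    let c := CFC.sqrt (star x * x + star s * s)
    have hc0 : 0 ≤ c := CFC.sqrt_nonneg _
    have hcs : star c = c := IsSelfAdjoint.of_nonneg hc0
    have hcc : c * c = star x * x + star s * s := CFC.sqrt_mul_sqrt_self _ h0
    obtain ⟨w, hw⟩ := exists_star_mul_self hc0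
    obtain ⟨z1, z2, t, e1, e2, e3⟩ := column h x s c hcs hcc.symm
    exact ⟨c, w, z1, z2, t, hw, hcc, e1, e2, e3⟩
  · intro h x y s hs
    obtain ⟨c, w, u, v, t, hw, hcc, e1, -, e3⟩ := h x s
    obtain ⟨c', w', u', v', t', hw', hcc', e1', e2', e3'⟩ := h y 0
    have hc0 : 0 ≤ c := by rw [hw]; exact star_mul_self_nonneg _
    have hc0' : 0 ≤ c' := by rw [hw']; exact star_mul_self_nonneg _
    have hcc2 : c' = c := by
      have h1 : c * c = c' * c' := by rw [hcc, hcc', hs]; simp
      rw [← CFC.sqrt_mul_self c hc0, h1, CFC.sqrt_mul_self c' hc0']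
    rw [hcc2] at e1' e2' hcc'
    have hcs : star c = c := IsSelfAdjoint.of_nonneg hc0
    have hy : star y * y = c * c := by rw [hcc']; simp
    have ht : t' * c = 0 := by
      have h1 : star (t' * c) * (t' * c) = 0 := by
        have h2 : c * (star u' * u' + star v' * v' + star t' * t') * c = c * c := by
          rw [e3', mul_one]
        have h3 : c * (star u' * u' + star v' * v' + star t' * t') * c
            = star (u' * c) * (u' * c) + star (v' * c) * (v' * c)
              + star (t' * c) * (t' * c) := by
          simp only [star_mul, hcs]; noncomm_ring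
        rw [h3, ← e1', ← e2', hy, star_zero, mul_zero, add_zero] at h2
        exact left_eq_add.1 h2.symm
      have h4 := CStarRing.norm_star_mul_self (x := t' * c)
      rw [h1, norm_zero] at h4
      exact norm_eq_zero.1 (by nlinarith [norm_nonneg (t' * c)])
    have hcu : c = star u' * y := by
      calc c = (star u' * u' + star v' * v' + star t' * t') * c := by rw [e3', one_mul]
        _ = star u' * (u' * c) + star v' * (v' * c) + star t' * (t' * c) := by noncomm_ring
        _ = star u' * y := by rw [← e1', ← e2', ht]; simp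
    have norm_le : ∀ u v t : A, star u * u + star v * v + star t * t = 1 → ‖u‖ ≤ 1 := by
      intro u v t hu
      have h1 : star u * u ≤ 1 := by
        rw [← hu, add_assoc]
        exact le_add_of_nonneg_right (add_nonneg (star_mul_self_nonneg v)
          (star_mul_self_nonneg t))
      have h2 := (CStarAlgebra.norm_le_one_iff_of_nonneg _ (star_mul_self_nonneg u)).2 h1
      rw [CStarRing.norm_star_mul_self] at h2
      nlinarith [norm_nonneg u]
    refine ⟨u * star u', ?_, ?_⟩
    · refine (norm_mul_le _ _).trans ?_
      rw [norm_star]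
      have h1 := norm_le u v t e3
      have h2 := norm_le u' v' t' e3'
      nlinarith [norm_nonneg u, norm_nonneg u']
    · rw [mul_assoc, ← hcu]; exact e1

end

end Pool.Agent.H275CG
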