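import Mathlib
import Pool.Agent.H275.CG.Defs
import Pool.Agent.Helper917.ToepKernel

set_option autoImplicit false

open scoped Matrix

namespace Pool.Agent.H275CG

open Pool.Agent.Helper917 (IsPos)

section

variable {A : Type*} [NonUnitalCStarAlgebra A]

/-- the path on three vertices -/
def path3 : SimpleGraph (Fin 3) where
  Adj i j := i ≠ j ∧ (i = 1 ∨ j = 1)
  symm := ⟨fun _ _ h => ⟨h.1.symm, h.2.symm⟩⟩
  loopless := ⟨fun _ h => h.1 rfl⟩

lemma completable_path3 (h : P3 A) : Completable A path3 := by
  intro M hM
  have herm : ∀ (K : Finset (Fin 3)), (∀ i ∈ K, ∀ j ∈ K, i ≠ j → path3.Adj i j) →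
      ∀ i ∈ K, ∀ j ∈ K, star (M i j) = M j i := by
    intro K hK i hi j hj
    exact (hM K hK).isHermitian ⟨i, hi⟩ ⟨j, hj⟩
  have c01 : ∀ i ∈ ({0, 1} : Finset (Fin 3)), ∀ j ∈ ({0, 1} : Finset (Fin 3)), i ≠ j →
      path3.Adj i j := by
    intro i hi j hj hij
    refine ⟨hij, ?_⟩
    revert i j
    decide
  have c12 : ∀ i ∈ ({1, 2} : Finset (Fin 3)), ∀ j ∈ ({1, 2} : Finset (Fin 3)), i ≠ j →
      path3.Adj i j := by
    intro i hi j hj hij
    refine ⟨hij, ?_⟩
    revert i j
    decide
  have s10 : star (M 0 1) = M 1 0 := herm _ c01 0 (by simp) 1 (by simp)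
  have s21 : star (M 1 2) = M 2 1 := herm _ c12 1 (by simp) 2 (by simp)
  have h1 : IsPos !![M 0 0, M 0 1; star (M 0 1), M 1 1] := by
    have := isPos_submatrix (hM {0, 1} c01) (![⟨0, by simp⟩, ⟨1, by simp⟩] :
      Fin 2 → ({0, 1} : Finset (Fin 3)))
    convert this using 1
    ext i j
    fin_cases i <;> fin_cases j <;> simp [s10]
  have h2 : IsPos !![M 1 1, M 1 2; star (M 1 2), M 2 2] := by
    have := isPos_submatrix (hM {1, 2} c12) (![⟨1, by simp⟩, ⟨2, by simp⟩] :
      Fin 2 → ({1, 2} : Finset (Fin 3)))
    convert this using 1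
    ext i j
    fin_cases i <;> fin_cases j <;> simp [s21]
  obtain ⟨y, hy⟩ := h _ _ _ _ _ h1 h2
  refine ⟨_, hy, ?_⟩
  intro i j hij
  fin_cases i <;> fin_cases j <;> simp [path3, s10, s21] at hij ⊢

lemma p3_of_completable {n : ℕ} {Γ : SimpleGraph (Fin n)} (hΓ : Completable A Γ) {i j k : Fin n}
    (hij : Γ.Adj i j) (hjk : Γ.Adj j k) (hik : i ≠ k) (hn : ¬ Γ.Adj i k) : P3 A := by
  classical
  intro a b c d e h1 h2
  obtain ⟨R, hR⟩ := h1
  obtain ⟨S, hS⟩ := h2
  have nij : i ≠ j := hij.ne
  have njk : j ≠ k := hjk.ne
  have r00 := congrFun (congrFun hR 0) 0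
  have r01 := congrFun (congrFun hR 0) 1
  have r10 := congrFun (congrFun hR 1) 0
  have r11 := congrFun (congrFun hR 1) 1
  have s00 := congrFun (congrFun hS 0) 0
  have s01 := congrFun (congrFun hS 0) 1
  have s10 := congrFun (congrFun hS 1) 0
  have s11 := congrFun (congrFun hS 1) 1
  simp only [Matrix.mul_apply, Fin.sum_univ_two, Matrix.conjTranspose_apply, Matrix.of_apply,
    Matrix.cons_val_zero, Matrix.cons_val_one, Matrix.cons_val'] at r00 r01 r10 r11 s00 s01 s10 s11
  let M : Matrix (Fin n) (Fin n) A := Matrix.of fun u v =>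
    if u = i then (if v = i then a else if v = j then b else 0)
    else if u = j then (if v = i then star b else if v = j then c else if v = k then d else 0)
    else if u = k then (if v = j then star d else if v = k then e else 0) else 0
  obtain ⟨Y, hY, hYM⟩ := hΓ M (by
    intro K hK
    by_cases hk : k ∈ K
    · have hi : i ∉ K := fun hi => hn (hK i hi k hk hik)
      have hne : ∀ u : K, (u : Fin n) ≠ i := fun u hu => hi (hu ▸ u.2)
      have := isPos_gram (Matrix.of (fun (s : Fin 2) (u : K) =>
        if (u : Fin n) = j then S s 0 else if (u : Fin n) = k then S s 1 else 0))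
      convert this using 1
      ext u v
      simp only [M, Matrix.submatrix_apply, Matrix.of_apply, hne, if_false, Matrix.mul_apply,
        Fin.sum_univ_two, Matrix.conjTranspose_apply]
      by_cases hu : (u : Fin n) = j
      · by_cases hv : (v : Fin n) = j
        · simp only [hu, hv, if_true]; exact s00
        · by_cases hv' : (v : Fin n) = k
          · simp only [hu, hv', if_true, njk.symm, if_false]; exact s01
          · simp [hu, hv, hv']
      · by_cases hu' : (u : Fin n) = k
        · by_cases hv : (v : Fin n) = j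
          · simp only [hu', hv, if_true, njk.symm, if_false]; exact s10
          · by_cases hv' : (v : Fin n) = k
            · simp only [hu', hv', if_true, njk.symm, if_false]; exact s11
            · simp [hu', hv, hv', njk.symm]
        · simp [hu, hu']
    · have hne : ∀ u : K, (u : Fin n) ≠ k := fun u hu => hk (hu ▸ u.2)
      have := isPos_gram (Matrix.of (fun (s : Fin 2) (u : K) =>
        if (u : Fin n) = i then R s 0 else if (u : Fin n) = j then R s 1 else 0))
      convert this using 1
      ext u v
      simp only [M, Matrix.submatrix_apply, Matrix.of_apply, hne, if_false, Matrix.mul_apply,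
        Fin.sum_univ_two, Matrix.conjTranspose_apply]
      by_cases hu : (u : Fin n) = i
      · by_cases hv : (v : Fin n) = i
        · simp only [hu, hv, if_true]; exact r00
        · by_cases hv' : (v : Fin n) = j
          · simp only [hu, hv', if_true, nij.symm, if_false]; exact r01
          · simp [hu, hv, hv']
      · by_cases hu' : (u : Fin n) = j
        · by_cases hv : (v : Fin n) = i
          · simp only [hu', hv, if_true, nij.symm, if_false]; exact r10
          · by_cases hv' : (v : Fin n) = j
            · simp only [hu', hv', if_true, nij.symm, if_false]; exact r11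
            · simp [hu', hv, hv', nij.symm]
        · simp [hu, hu'])
  refine ⟨Y i k, ?_⟩
  have := isPos_submatrix hY ![i, j, k]
  convert this using 1
  have y00 := hYM i i (Or.inl rfl)
  have y11 := hYM j j (Or.inl rfl)
  have y22 := hYM k k (Or.inl rfl)
  have y01 := hYM i j (Or.inr hij)
  have y10 := hYM j i (Or.inr hij.symm)
  have y12 := hYM j k (Or.inr hjk)
  have y21 := hYM k j (Or.inr hjk.symm)
  have y20 := hY.isHermitian i k
  simp only [M, Matrix.of_apply, if_true, nij.symm, njk.symm, hik.symm, if_false] at y00 y11 y22 y01 y10 y12 y21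
  ext p q
  fin_cases p <;> fin_cases q <;> simp [y00, y11, y22, y01, y10, y12, y21, y20]

theorem onlyCliqueUnions_iff : OnlyCliqueUnions A ↔ ¬ P3 A := by
  constructor
  · intro H h
    have := H 3 path3 (completable_path3 h) 0 1 2 ⟨by decide, by decide⟩ ⟨by decide, by decide⟩
      (by decide)
    exact absurd this.2 (by decide)
  · intro H n Γ hΓ i j k hij hjk hik
    by_contra hn
    exact H (p3_of_completable hΓ hij hjk hik hn)

end

end Pool.Agent.H275CG
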